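import Pool.Agent.X71.Cc.Triples

/-!
# Segmentations and labellings
-/

set_option autoImplicit false
set_option linter.unusedSectionVars false

open Finset

namespace Pool.Agent.X71.Cc

/-- `π` has a segmentation for the signature `σ` -/
def InClass {n k : ℕ} (σ : Fin k → Bool) (π : Equiv.Perm (Fin n)) : Prop :=
  ∃ e : ℕ → ℕ, e 0 = 0 ∧ e k = n ∧ (∀ i < k, e i ≤ e (i + 1)) ∧
    ∀ (i : Fin k) (a b : Fin n), e i ≤ a → a < b → (b : ℕ) < e (i + 1) →
      if σ i = true then π a < π b else π b < π a

lemma lt_card_iff {n : ℕ} {w : Fin n → ℕ} (hw : Monotone w) (j : ℕ) (a : Fin n) :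
    (a : ℕ) < (univ.filter fun x => w x < j).card ↔ w a < j := by
  constructor
  · intro h
    by_contra h1
    push Not at h1
    have h2 : (univ.filter fun x => w x < j) ⊆ Finset.Iio a := by
      intro x hx
      rw [mem_filter] at hx
      rw [Finset.mem_Iio]
      by_contra h3
      push Not at h3
      have := hw h3
      omega
    have h3 := card_le_card h2
    rw [Fin.card_Iio] at h3
    omega
  · intro h
    have h2 : Finset.Iic a ⊆ (univ.filter fun x => w x < j) := by
      intro x hx
      rw [Finset.mem_Iic] at hx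
      rw [mem_filter]
      exact ⟨mem_univ _, lt_of_le_of_lt (hw hx) h⟩
    have h3 := card_le_card h2
    rw [Fin.card_Iic] at h3
    omega

lemma inClass_iff {n k : ℕ} (σ : Fin k → Bool) (π : Equiv.Perm (Fin n)) :
    InClass σ π ↔ ∃ w : Fin n → Fin k, CompW σ π w := by
  classical
  constructor
  · rintro ⟨e, h0, hk, hmono, h⟩
    have hex : ∀ a : Fin n, ∃ j, (a : ℕ) < e j := fun a => ⟨k, by rw [hk]; exact a.2⟩
    have hle : ∀ a : Fin n, Nat.find (hex a) ≤ k := fun a => Nat.find_min' _ (by rw [hk]; exact a.2)
    have hpos : ∀ a : Fin n, 0 < Nat.find (hex a) := by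
      intro a
      rw [Nat.pos_iff_ne_zero]
      intro h1
      have := Nat.find_spec (hex a)
      rw [h1, h0] at this
      omega
    let w : Fin n → Fin k := fun a => ⟨Nat.find (hex a) - 1, by
      have := hle a
      have := hpos a
      omega⟩
    have hwv : ∀ a : Fin n, (w a : ℕ) + 1 = Nat.find (hex a) := by
      intro a
      show Nat.find (hex a) - 1 + 1 = _
      have := hpos a
      omega
    have hlow : ∀ a : Fin n, e (w a) ≤ a := by
      intro a
      have h1 : (w a : ℕ) < Nat.find (hex a) := by have := hwv a; omega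
      exact not_lt.mp (Nat.find_min (hex a) h1)
    have hup : ∀ a : Fin n, (a : ℕ) < e (w a + 1) := by
      intro a
      rw [hwv]
      exact Nat.find_spec (hex a)
    refine ⟨w, fun i j hij => ⟨?_, fun he => ?_⟩⟩
    · have h1 : Nat.find (hex i) ≤ Nat.find (hex j) :=
        Nat.find_min' _ (lt_trans (show (i : ℕ) < j from hij) (Nat.find_spec (hex j)))
      have h2 := hwv i
      have h3 := hwv j
      show (w i : ℕ) ≤ w j
      omega
    · exact h (w i) i j (hlow i) hij (by rw [he]; exact hup j)
  · rintro ⟨w, hw⟩
    have hmono : Monotone fun a => (w a : ℕ) := by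
      intro a b hab
      rcases lt_or_eq_of_le hab with h | h
      · exact (hw a b h).1
      · rw [h]
    refine ⟨fun j => (univ.filter fun x => (w x : ℕ) < j).card, ?_, ?_, ?_, ?_⟩
    · simp
    · show (univ.filter fun x => (w x : ℕ) < k).card = n
      rw [filter_true_of_mem fun x _ => (w x).2, card_univ, Fintype.card_fin]
    · intro i _
      refine card_le_card fun x hx => ?_
      rw [mem_filter] at hx ⊢
      exact ⟨hx.1, by omega⟩
    · intro i a b ha hab hb
      have h1 : ¬ (w a : ℕ) < i := by
        rw [← lt_card_iff hmono]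
        exact not_lt.mpr ha
      have h2 : (w b : ℕ) < i + 1 := by
        rw [← lt_card_iff hmono]
        exact hb
      have h3 : (w a : ℕ) ≤ w b := hmono hab.le
      have h4 : w a = i := Fin.ext (by omega)
      have h5 : w a = w b := Fin.ext (by omega)
      have h6 := (hw a b hab).2 h5
      rw [h4] at h6
      exact h6


end Pool.Agent.X71.Cc
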