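import Mathlib

/-!
# Signed sums over primitive words
-/

set_option autoImplicit false

open Finset Function

namespace Pool.Agent.X71.Cc

/-- the shift on infinite words -/
def shiftW {α : Type*} (v : ℕ → α) : ℕ → α := fun i => v (i + 1)

lemma shiftW_iter {α : Type*} (p : ℕ) (v : ℕ → α) : shiftW^[p] v = fun i => v (i + p) := by
  induction p generalizing v with
  | zero => rfl
  | succ p ih =>
    rw [iterate_succ_apply, ih]
    funext i
    show v (i + p + 1) = v (i + (p + 1))
    rfl

lemma isPer_iff {α : Type*} {p : ℕ} {v : ℕ → α} :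
    IsPeriodicPt shiftW p v ↔ ∀ i, v (i + p) = v i := by
  unfold IsPeriodicPt IsFixedPt
  rw [shiftW_iter]
  exact funext_iff

open Classical in
/-- the periodic words of period `n` over `Fin K` -/
noncomputable def Wn (K n : ℕ) [NeZero n] : Finset (ℕ → Fin K) :=
  univ.image (fun (u : ZMod n → Fin K) (i : ℕ) => u i)

lemma mem_Wn {K n : ℕ} [NeZero n] {v : ℕ → Fin K} :
    v ∈ Wn K n ↔ IsPeriodicPt shiftW n v := by
  classical
  rw [isPer_iff, Wn, mem_image]
  constructor
  · rintro ⟨u, -, rfl⟩ i
    simp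
  · intro h
    refine ⟨fun a => v a.val, mem_univ _, ?_⟩
    funext i
    show v ((i : ZMod n).val) = v i
    rw [ZMod.val_natCast]
    exact Function.Periodic.map_mod_nat (f := v) (a := n) h i

lemma prod_ZMod {n : ℕ} [NeZero n] (f : ZMod n → ℤ) :
    ∏ i ∈ range n, f (i : ZMod n) = ∏ a, f a := by
  symm
  refine Finset.prod_bij (fun a _ => a.val) (fun a _ => ?_) (fun a _ b _ h => ?_)
    (fun i hi => ?_) (fun a _ => ?_)
  · exact mem_range.mpr (ZMod.val_lt a)
  · exact ZMod.val_injective n h
  · exact ⟨(i : ZMod n), mem_univ _, ZMod.val_cast_of_lt (mem_range.mp hi)⟩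
  · rw [ZMod.natCast_zmod_val]

lemma ext_inj {K n : ℕ} [NeZero n] :
    Function.Injective (fun (u : ZMod n → Fin K) (i : ℕ) => u (i : ZMod n)) := by
  intro u u' h
  funext a
  have := congrFun h a.val
  simpa using this

lemma sum_Wn {K n : ℕ} [NeZero n] (e : Fin K → ℤ) :
    ∑ v ∈ Wn K n, ∏ i ∈ range n, e (v i) = (∑ c, e c) ^ n := by
  classical
  rw [Wn, sum_image fun u _ u' _ h => ext_inj h]
  have h1 : ∀ u : ZMod n → Fin K, ∏ i ∈ range n, e (u (i : ZMod n)) = ∏ a, e (u a) :=
    fun u => prod_ZMod (fun a => e (u a))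
  rw [sum_congr rfl fun u _ => h1 u]
  have h2 := (Finset.prod_univ_sum (fun _ : ZMod n => (univ : Finset (Fin K)))
    (fun _ c => e c)).symm
  rw [Fintype.piFinset_univ] at h2
  rw [h2, prod_const, card_univ, ZMod.card]

lemma prod_mul_period {K : ℕ} {v : ℕ → Fin K} {d : ℕ} (hv : ∀ i, v (i + d) = v i)
    (e : Fin K → ℤ) (q : ℕ) :
    ∏ i ∈ range (d * q), e (v i) = (∏ i ∈ range d, e (v i)) ^ q := by
  induction q with
  | zero => simp
  | succ q ih =>
    rw [Nat.mul_succ, prod_range_add, ih, pow_succ]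
    congr 1
    refine prod_congr rfl fun i _ => ?_
    congr 1
    have h := Function.Periodic.nat_mul (f := v) (c := d) hv q i
    rw [Nat.cast_id] at h
    rw [← h]
    congr 1
    ring

open Classical in
/-- **No signed primitive words.** -/
theorem prim_sum {K : ℕ} (e : Fin K → ℤ) (he1 : ∀ c, e c = 1 ∨ e c = -1)
    (he : (∑ c, e c) = 0 ∨ (∑ c, e c) = 1 ∨ (∑ c, e c) = -1) :
    ∀ h : ℕ, Odd h → 1 < h → ∀ [NeZero h],
      ∑ v ∈ (Wn K h).filter (fun v => minimalPeriod shiftW v = h), ∏ i ∈ range h, e (v i) = 0 := by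
  have hs : ∀ m, Odd m → (∑ c, e c) ^ m = ∑ c, e c := by
    intro m hm
    rcases he with h | h | h <;> rw [h]
    · exact zero_pow hm.pos.ne'
    · exact one_pow m
    · exact hm.neg_one_pow
  have hinner : ∀ (n d : ℕ) (hd : d ∣ n) (ho : Odd n) [NeZero n] [NeZero d],
      ∑ v ∈ (Wn K n).filter (fun v => minimalPeriod shiftW v = d), ∏ i ∈ range n, e (v i) =
      ∑ v ∈ (Wn K d).filter (fun v => minimalPeriod shiftW v = d), ∏ i ∈ range d, e (v i) := by
    intro n d hd ho _ _
    refine sum_congr ?_ ?_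
    · ext v
      rw [mem_filter, mem_filter, mem_Wn, mem_Wn]
      constructor
      · rintro ⟨_, h2⟩
        exact ⟨h2 ▸ isPeriodicPt_minimalPeriod shiftW v, h2⟩
      · rintro ⟨h1, h2⟩
        exact ⟨h1.trans_dvd hd, h2⟩
    · intro v hv
      rw [mem_filter, mem_Wn] at hv
      obtain ⟨q, rfl⟩ := hd
      rw [prod_mul_period (isPer_iff.mp hv.1) e q]
      have hq : Odd q := (Nat.odd_mul.mp ho).2
      have h1 : ∏ i ∈ range d, e (v i) = 1 ∨ ∏ i ∈ range d, e (v i) = -1 := by
        induction d with
        | zero => left; simp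
        | succ d _ =>
          have : ∀ s : Finset ℕ, ∏ i ∈ s, e (v i) = 1 ∨ ∏ i ∈ s, e (v i) = -1 := by
            intro s
            induction s using Finset.induction_on with
            | empty => left; simp
            | insert a s ha ih =>
              rw [prod_insert ha]
              rcases ih with h | h <;> rcases he1 (v a) with h' | h' <;> rw [h, h'] <;> simp
          exact this _
      rcases h1 with h | h <;> rw [h]
      · exact one_pow q
      · exact hq.neg_one_pow
  intro h
  induction h using Nat.strong_induction_on with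
  | _ h ih =>
    intro ho h1 _
    have htot := sum_Wn (n := h) e
    rw [hs h ho] at htot
    have hmaps : ∀ v ∈ Wn K h, minimalPeriod shiftW v ∈ h.divisors := by
      intro v hv
      rw [Nat.mem_divisors]
      exact ⟨(mem_Wn.mp hv).minimalPeriod_dvd, NeZero.ne h⟩
    rw [← sum_fiberwise_of_maps_to hmaps] at htot
    rw [sum_eq_add_of_mem 1 h (Nat.one_mem_divisors.mpr (NeZero.ne h))
      (Nat.mem_divisors_self h (NeZero.ne h)) h1.ne] at htot
    · haveI : NeZero (1 : ℕ) := ⟨one_ne_zero⟩
      rw [hinner h 1 (one_dvd _) ho] at htot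
      have h3 : ∑ v ∈ (Wn K 1).filter (fun v => minimalPeriod shiftW v = 1),
          ∏ i ∈ range 1, e (v i) = ∑ c, e c := by
        rw [filter_true_of_mem]
        · have := sum_Wn (n := 1) e
          rw [pow_one] at this
          exact this
        · intro v hv
          exact Nat.dvd_one.mp (mem_Wn.mp hv).minimalPeriod_dvd
      rw [h3] at htot
      linarith
    · intro d hd hd1
      have hdd := Nat.dvd_of_mem_divisors hd
      have hd0 : 0 < d := Nat.pos_of_mem_divisors hd
      haveI : NeZero d := ⟨hd0.ne'⟩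
      rw [hinner h d hdd ho]
      refine ih d (lt_of_le_of_ne (Nat.le_of_dvd (by omega) hdd) hd1.2) (ho.of_dvd_nat hdd) ?_
      have := hd1.1
      omega

end Pool.Agent.X71.Cc
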