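import Pool.Agent.X71.Cc.Keys
import Pool.Agent.X71.Cc.Words

/-!
# The number of compatible pairs is the same for a signature and its negative
-/

set_option autoImplicit false
set_option linter.unusedSectionVars false
set_option linter.style.haveILetI false

open Finset Function

namespace Pool.Agent.X71.Cc

variable {n K : ℕ} [NeZero n]

lemma Per_of_nat {u : ZMod n → Fin K} {d : ℕ}
    (h : ∀ i : ℕ, u ((i + d : ℕ) : ZMod n) = u (i : ZMod n)) : (d : ZMod n) ∈ Per u := by
  intro t
  have h1 := h t.val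
  rw [Nat.cast_add, ZMod.natCast_zmod_val] at h1
  exact h1

open Classical in
lemma half_sum (σ : Fin K → Bool) {h : ℕ} [NeZero h] (hn : n = h + h) :
    ∑ u ∈ univ.filter (fun u : ZMod n → Fin K => Per u = {0, (h : ZMod n)}), EE σ u 0 h =
    ∑ v ∈ (Wn K h).filter (fun v => minimalPeriod shiftW v = h),
      ∏ i ∈ range h, sg (σ (v i)) := by
  have hh0 : 0 < h := Nat.pos_of_ne_zero (NeZero.ne h)
  refine Finset.sum_bij (fun u _ => fun i : ℕ => u (i : ZMod n)) (fun u hu => ?_)
    (fun u _ u' _ he => ext_inj he) (fun v hv => ?_) (fun u _ => ?_)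
  · rw [mem_filter] at hu
    have hP := hu.2
    have hh : (h : ZMod n) ∈ Per u := by rw [hP]; right; rfl
    have hper : IsPeriodicPt shiftW h (fun i : ℕ => u (i : ZMod n)) := by
      rw [isPer_iff]
      intro i
      rw [Nat.cast_add]
      exact hh _
    rw [mem_filter, mem_Wn]
    refine ⟨hper, ?_⟩
    set d := minimalPeriod shiftW (fun i : ℕ => u (i : ZMod n)) with hd
    have hdd : d ∣ h := hper.minimalPeriod_dvd
    have hdle : d ≤ h := Nat.le_of_dvd hh0 hdd
    have hd0 : 0 < d := hper.minimalPeriod_pos hh0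
    have h1 : (d : ZMod n) ∈ Per u := Per_of_nat (isPer_iff.mp
      (isPeriodicPt_minimalPeriod shiftW (fun i : ℕ => u (i : ZMod n))))
    rw [hP] at h1
    rcases h1 with h1 | h1
    · rw [ZMod.natCast_eq_zero_iff] at h1
      have := Nat.le_of_dvd hd0 h1
      omega
    · rw [Set.mem_singleton_iff] at h1
      have h2 := congrArg ZMod.val h1
      rw [ZMod.val_cast_of_lt (by omega), ZMod.val_cast_of_lt (by omega)] at h2
      exact h2
  · rw [mem_filter, mem_Wn] at hv
    obtain ⟨hv1, hv2⟩ := hv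
    have hvn : v ∈ Wn K n := by
      rw [mem_Wn, hn]
      exact hv1.add hv1
    rw [Wn, mem_image] at hvn
    obtain ⟨u, -, rfl⟩ := hvn
    refine ⟨u, ?_, rfl⟩
    rw [mem_filter]
    refine ⟨mem_univ _, ?_⟩
    ext a
    rw [Set.mem_insert_iff, Set.mem_singleton_iff]
    constructor
    · intro ha
      have h1 : IsPeriodicPt shiftW a.val (fun i : ℕ => u (i : ZMod n)) := by
        rw [isPer_iff]
        intro i
        rw [Nat.cast_add, ZMod.natCast_zmod_val]
        exact ha _
      have h2 := h1.minimalPeriod_dvd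
      rw [hv2] at h2
      obtain ⟨c, hc⟩ := h2
      have h3 := ZMod.val_lt a
      have h4 : c < 2 := by
        by_contra h5
        push Not at h5
        have : h * 2 ≤ h * c := Nat.mul_le_mul_left h h5
        omega
      interval_cases c
      · left
        rw [mul_zero] at hc
        exact (ZMod.val_eq_zero a).mp hc
      · right
        rw [← ZMod.natCast_zmod_val a, hc, mul_one]
    · rintro (rfl | rfl)
      · exact zero_mem_Per
      · exact Per_of_nat (isPer_iff.mp hv1)
  · unfold EE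
    refine prod_congr rfl fun i _ => ?_
    rw [zero_add]

lemma EE_neg {σ σ' : Fin K → Bool} (hσ : ∀ c, σ' c = !σ c) (u : ZMod n → Fin K) (s : ZMod n)
    (j : ℕ) : EE σ' u s j = (-1) ^ j * EE σ u s j := by
  induction j with
  | zero => simp [EE_zero]
  | succ j ih =>
    rw [EE_succ, EE_succ, ih, hσ, pow_succ]
    have : ∀ b : Bool, sg (!b) = - sg b := by intro b; cases b <;> simp [sg]
    rw [this]
    ring

lemma LL_zero {σ : Fin K → Bool} {u : ZMod n → Fin K} (h1 : ¬ Per u ⊆ {0})
    (h2 : ¬ ∃ h, n = h + h ∧ Per u = {0, (h : ZMod n)}) : LL σ u = 0 := by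
  classical
  unfold LL
  rw [card_eq_zero, filter_eq_empty_iff]
  intro ρ _ hc
  rcases per_of_comp hc with h | h
  · exact h1 h
  · exact h2 h

theorem sum_LL {σ σ' : Fin K → Bool} (hσ : ∀ c, σ' c = !σ c)
    (hs : (∑ c, sg (σ c)) = 0 ∨ (∑ c, sg (σ c)) = 1 ∨ (∑ c, sg (σ c)) = -1) (hn3 : 3 ≤ n) :
    ∑ u : ZMod n → Fin K, LL σ u = ∑ u : ZMod n → Fin K, LL σ' u := by
  classical
  by_cases he : ∃ h, n = h + h
  swap
  · refine sum_congr rfl fun u _ => ?_
    by_cases h1 : Per u ⊆ {0}
    · rw [LL_prim h1, LL_prim h1]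
    · have h2 : ¬ ∃ h, n = h + h ∧ Per u = {0, (h : ZMod n)} := by
        rintro ⟨h, h3, _⟩
        exact he ⟨h, h3⟩
      rw [LL_zero h1 h2, LL_zero h1 h2]
  obtain ⟨h, hn⟩ := he
  haveI : NeZero h := ⟨by omega⟩
  have key : ∀ u : ZMod n → Fin K, (LL σ u : ℤ) - LL σ' u =
      if Per u = {0, (h : ZMod n)} then ((-1) ^ h - 1) * EE σ u 0 h else 0 := by
    intro u
    by_cases h1 : Per u ⊆ {0}
    · rw [LL_prim h1, LL_prim h1, sub_self, if_neg]
      intro h2
      have h3 : (h : ZMod n) ∈ Per u := by rw [h2]; right; rfl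
      have h4 := h1 h3
      rw [Set.mem_singleton_iff, ZMod.natCast_eq_zero_iff] at h4
      have := Nat.le_of_dvd (by omega) h4
      omega
    · by_cases h2 : Per u = {0, (h : ZMod n)}
      · rw [if_pos h2, LL_half hn h2, LL_half hn h2, EE_neg hσ]
        ring
      · have h3 : ¬ ∃ h, n = h + h ∧ Per u = {0, (h : ZMod n)} := by
          rintro ⟨h', h4, h5⟩
          have : h' = h := by omega
          rw [this] at h5
          exact h2 h5
        rw [if_neg h2, LL_zero h1 h3, LL_zero h1 h3]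
        rfl
  have hsum : (∑ u : ZMod n → Fin K, (LL σ u : ℤ)) - ∑ u : ZMod n → Fin K, (LL σ' u : ℤ) = 0 := by
    rw [← sum_sub_distrib, sum_congr rfl fun u _ => key u, ← sum_filter, ← mul_sum,
      half_sum σ hn]
    rcases Nat.even_or_odd h with h1 | h1
    · rw [h1.neg_one_pow, sub_self, zero_mul]
    · rw [prim_sum (fun c => sg (σ c)) (fun c => sg_or _) hs h h1, mul_zero]
      omega
  have h2 : (∑ u : ZMod n → Fin K, (LL σ u : ℤ)) = ∑ u : ZMod n → Fin K, (LL σ' u : ℤ) := by
    linarith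
  exact_mod_cast h2

end Pool.Agent.X71.Cc
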