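import Pool.Agent.X71.Cc.Orders

/-!
# Existence of compatible orders, and their number
-/

set_option autoImplicit false
set_option linter.unusedSectionVars false
set_option linter.style.haveILetI false

open Finset Function

namespace Pool.Agent.X71.Cc

variable {n K : ℕ} [NeZero n]

variable (σ : Fin K → Bool) (u : ZMod n → Fin K)

/-- the twisted itinerary -/
def kapF (t : ZMod n) (j : ℕ) : ℤ := EE σ u t j * ((u (t + j) : ℕ) + 1 : ℤ)

/-- the twisted itinerary as an element of the lexicographic order -/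
def kap (t : ZMod n) : Lex (ℕ → ℤ) := toLex (kapF σ u t)

variable {σ u}

lemma kapF_zero (t : ZMod n) : kapF σ u t 0 = (u t : ℕ) + 1 := by
  simp [kapF, EE_zero]

lemma kapF_succ (t : ZMod n) (j : ℕ) :
    kapF σ u t (j + 1) = sg (σ (u t)) * kapF σ u (t + 1) j := by
  unfold kapF
  rw [EE_succ', mul_assoc]
  congr 5
  push_cast
  ring

lemma kap_lt {s t : ZMod n} : kap σ u s < kap σ u t ↔
    ∃ j, (∀ i < j, kapF σ u s i = kapF σ u t i) ∧ kapF σ u s j < kapF σ u t j := Iff.rfl

lemma kapF_eq_letter {s t : ZMod n} {j : ℕ} (h : kapF σ u s j = kapF σ u t j) :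
    u (s + j) = u (t + j) := by
  unfold kapF at h
  have h1 := congrArg Int.natAbs h
  rw [Int.natAbs_mul, Int.natAbs_mul] at h1
  have h2 : (EE σ u s j).natAbs = 1 := by rcases EE_or σ u s j with h | h <;> rw [h] <;> rfl
  have h3 : (EE σ u t j).natAbs = 1 := by rcases EE_or σ u t j with h | h <;> rw [h] <;> rfl
  rw [h2, h3] at h1
  ext1
  omega

lemma kap_eq {s t : ZMod n} (h : kap σ u s = kap σ u t) (j : ℕ) : u (s + j) = u (t + j) :=
  kapF_eq_letter (congrFun h j)

lemma kap_lt_of_lt {s t : ZMod n} (h : u s < u t) : kap σ u s < kap σ u t := by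
  rw [kap_lt]
  refine ⟨0, fun i hi => absurd hi (Nat.not_lt_zero i), ?_⟩
  rw [kapF_zero, kapF_zero]
  have : (u s : ℕ) < u t := h
  omega

lemma kap_step {s t : ZMod n} (h : u s = u t) (hlt : kap σ u s < kap σ u t) :
    if σ (u s) = true then kap σ u (s + 1) < kap σ u (t + 1)
    else kap σ u (t + 1) < kap σ u (s + 1) := by
  rw [kap_lt] at hlt
  obtain ⟨j, h1, h2⟩ := hlt
  cases j with
  | zero =>
    rw [kapF_zero, kapF_zero, h] at h2
    exact absurd h2 (lt_irrefl _)
  | succ j =>
    have h3 : ∀ i < j, kapF σ u (s + 1) i = kapF σ u (t + 1) i := by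
      intro i hi
      have h4 := h1 (i + 1) (by omega)
      rw [kapF_succ, kapF_succ, ← h] at h4
      have h5 : sg (σ (u s)) ≠ 0 := by
        rcases sg_or (σ (u s)) with h | h <;> rw [h] <;> norm_num
      exact mul_left_cancel₀ h5 h4
    rw [kapF_succ, kapF_succ, ← h] at h2
    split_ifs with h6
    · rw [kap_lt]
      refine ⟨j, h3, ?_⟩
      rw [h6] at h2
      simpa [sg] using h2
    · rw [kap_lt]
      refine ⟨j, fun i hi => (h3 i hi).symm, ?_⟩
      rw [Bool.eq_false_of_not_eq_true h6] at h2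
      simpa [sg] using h2

lemma kap_step_eq {s t : ZMod n} (h : kap σ u s = kap σ u t) :
    kap σ u (s + 1) = kap σ u (t + 1) := by
  have h0 : u s = u t := by simpa using kap_eq h 0
  show toLex (kapF σ u (s + 1)) = toLex (kapF σ u (t + 1))
  congr 1
  funext j
  have h4 : kapF σ u s (j + 1) = kapF σ u t (j + 1) := congrFun h (j + 1)
  rw [kapF_succ, kapF_succ, ← h0] at h4
  have h5 : sg (σ (u s)) ≠ 0 := by
    rcases sg_or (σ (u s)) with h | h <;> rw [h] <;> norm_num
  exact mul_left_cancel₀ h5 h4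

/-- the periods of a cyclic word -/
def Per (u : ZMod n → Fin K) : Set (ZMod n) := {a | ∀ t, u (t + a) = u t}

lemma zero_mem_Per : (0 : ZMod n) ∈ Per u := fun t => by rw [add_zero]

lemma mem_Per_of_eq {s t : ZMod n} (h : ∀ j : ℕ, u (s + j) = u (t + j)) : t - s ∈ Per u := by
  intro x
  have h1 := h (x - s).val
  rw [ZMod.natCast_zmod_val] at h1
  have e1 : s + (x - s) = x := by ring
  have e2 : t + (x - s) = x + (t - s) := by ring
  rw [e1, e2] at h1
  exact h1.symm

lemma exists_prim (h : Per u ⊆ {0}) : ∃ ρ : ZMod n ≃ Fin n, Comp σ u ρ := by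
  refine exists_of_key (kap σ u) (fun s t hst => ?_) (fun s t => kap_lt_of_lt)
    (fun s t => kap_step)
  have h1 := h (mem_Per_of_eq (kap_eq hst))
  rw [Set.mem_singleton_iff, sub_eq_zero] at h1
  exact h1.symm

lemma unique_prim (h : Per u ⊆ {0}) {ρ ρ' : ZMod n ≃ Fin n} (hc : Comp σ u ρ)
    (hc' : Comp σ u ρ') : ρ = ρ' := by
  refine hc.uniq hc' fun s t hst => ?_
  have h1 := h (mem_Per_of_eq hst)
  rw [Set.mem_singleton_iff, sub_eq_zero] at h1
  rw [h1, DD_self, DD_self]

section half

variable {h : ℕ}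

lemma tau_step (hn : n = h + h) (hP : (h : ZMod n) ∈ Per u) (t : ZMod n) :
    EE σ u 0 (t + 1).val = EE σ u 0 t.val * sg (σ (u t)) := by
  have hn0 : 0 < n := Nat.pos_of_ne_zero (NeZero.ne n)
  have h1 : EE σ u 0 (t.val + 1) = EE σ u 0 t.val * sg (σ (u t)) := by
    rw [EE_succ, ZMod.natCast_zmod_val, zero_add]
  rcases Nat.lt_or_ge (t.val + 1) n with h2 | h2
  · have h3 : (t + 1).val = t.val + 1 := by
      have : (t + 1 : ZMod n) = ((t.val + 1 : ℕ) : ZMod n) := by
        push_cast
        rw [ZMod.natCast_zmod_val]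
      rw [this, ZMod.val_cast_of_lt h2]
    rw [h3, h1]
  · have h3 : t.val + 1 = n := le_antisymm (ZMod.val_lt t) h2
    have h4 : t + 1 = 0 := by
      have : (t + 1 : ZMod n) = ((t.val + 1 : ℕ) : ZMod n) := by
        push_cast
        rw [ZMod.natCast_zmod_val]
      rw [this, h3, ZMod.natCast_self]
    have h5 : EE σ u 0 n = EE σ u 0 (h + h) := congrArg (EE σ u 0) hn
    rw [h4, ZMod.val_zero, EE_zero, ← h1, h3, h5]
    exact (EE_two (σ := σ) (u := u) (p := h) (fun t => hP t)).symm

lemma exists_half (hn : n = h + h) (hP : Per u = {0, (h : ZMod n)}) (hE : EE σ u 0 h = -1) :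
    ∃ ρ : ZMod n ≃ Fin n, Comp σ u ρ := by
  have hn0 : 0 < n := Nat.pos_of_ne_zero (NeZero.ne n)
  have hh : (h : ZMod n) ∈ Per u := by rw [hP]; right; rfl
  have hτ : ∀ t : ZMod n, EE σ u 0 (t + (h : ZMod n)).val = - EE σ u 0 t.val := by
    have h1 : ∀ j : ℕ, EE σ u 0 ((j : ZMod n) + (h : ZMod n)).val = - EE σ u 0 (j : ZMod n).val := by
      intro j
      induction j with
      | zero =>
        rw [Nat.cast_zero, zero_add, ZMod.val_zero, EE_zero, ZMod.val_cast_of_lt (by omega), hE]
      | succ j ih =>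
        have e1 : ((j + 1 : ℕ) : ZMod n) + (h : ZMod n) = ((j : ZMod n) + (h : ZMod n)) + 1 := by
          push_cast; ring
        have e2 : ((j + 1 : ℕ) : ZMod n) = (j : ZMod n) + 1 := by push_cast; ring
        rw [e1, e2, tau_step hn hh, tau_step hn hh, ih, hh]
        ring
    intro t
    have := h1 t.val
    rwa [ZMod.natCast_zmod_val] at this
  let κ : ZMod n → Lex (Lex (ℕ → ℤ) × ℤ) := fun t => toLex (kap σ u t, EE σ u 0 t.val)
  have hκ : ∀ s t, κ s < κ t ↔
      kap σ u s < kap σ u t ∨ kap σ u s = kap σ u t ∧ EE σ u 0 s.val < EE σ u 0 t.val :=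
    fun s t => Prod.Lex.toLex_lt_toLex
  refine exists_of_key κ (fun s t hst => ?_) (fun s t hl => ?_) (fun s t he hl => ?_)
  · have h1 : kap σ u s = kap σ u t := congrArg (fun x => (ofLex x).1) hst
    have h2 : EE σ u 0 s.val = EE σ u 0 t.val := congrArg (fun x => (ofLex x).2) hst
    have h3 : t - s ∈ Per u := mem_Per_of_eq (kap_eq h1)
    rw [hP] at h3
    rcases h3 with h3 | h3
    · rw [sub_eq_zero] at h3; exact h3.symm
    · rw [Set.mem_singleton_iff, sub_eq_iff_eq_add] at h3
      exfalso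
      rw [h3, add_comm, hτ] at h2
      rcases EE_or σ u 0 s.val with h4 | h4 <;> rw [h4] at h2 <;> norm_num at h2
  · rw [hκ]
    exact Or.inl (kap_lt_of_lt hl)
  · rw [hκ] at hl
    rcases hl with hl | ⟨hl, hl2⟩
    · have h1 := kap_step he hl
      split_ifs at h1 ⊢ with h2
      · rw [hκ]; exact Or.inl h1
      · rw [hκ]; exact Or.inl h1
    · have h1 := kap_step_eq hl
      split_ifs with h2
      · rw [hκ]
        refine Or.inr ⟨h1, ?_⟩
        rw [tau_step hn hh, tau_step hn hh, ← he, h2]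
        simpa [sg] using hl2
      · rw [hκ]
        refine Or.inr ⟨h1.symm, ?_⟩
        rw [tau_step hn hh, tau_step hn hh, ← he, Bool.eq_false_of_not_eq_true h2]
        simpa [sg] using hl2

lemma shift_comp (hP : (h : ZMod n) ∈ Per u) {ρ : ZMod n ≃ Fin n} (hc : Comp σ u ρ) :
    Comp σ u ((Equiv.addRight (h : ZMod n)).trans ρ) := by
  constructor
  · intro s t hst
    refine hc.1 _ _ ?_
    show u (s + h) < u (t + h)
    rw [hP, hP]
    exact hst
  · intro s t he hlt
    have h1 := hc.2 (s + h) (t + h) (by rw [hP, hP]; exact he) hlt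
    rw [hP] at h1
    have e : ∀ x : ZMod n, x + h + 1 = x + 1 + h := fun x => by ring
    rw [e, e] at h1
    exact h1

lemma unique_half (hn : n = h + h) (hP : Per u = {0, (h : ZMod n)}) {ρ ρ' : ZMod n ≃ Fin n}
    (hc : Comp σ u ρ) (hc' : Comp σ u ρ') (hD : DD ρ 0 h = DD ρ' 0 h) : ρ = ρ' := by
  have hh : (h : ZMod n) ∈ Per u := by rw [hP]; right; rfl
  have key : ∀ t, DD ρ t (t + h) = DD ρ' t (t + h) := by
    intro t
    have e : ∀ i : ℕ, (h : ZMod n) + i = i + h := fun i => by ring
    have h1 := hc.iter (s := 0) (t := (h : ZMod n)) (j := t.val)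
      (fun i _ => by rw [e, hh, zero_add])
    have h2 := hc'.iter (s := 0) (t := (h : ZMod n)) (j := t.val)
      (fun i _ => by rw [e, hh, zero_add])
    rw [ZMod.natCast_zmod_val, zero_add] at h1 h2
    rw [h1, h2] at hD
    have h3 : EE σ u 0 t.val ≠ 0 := by
      rcases EE_or σ u 0 t.val with h | h <;> rw [h] <;> norm_num
    have h4 := mul_left_cancel₀ h3 hD
    rw [add_comm t]
    exact h4
  refine hc.uniq hc' fun s t hst => ?_
  have h1 := mem_Per_of_eq hst
  rw [hP] at h1
  rcases h1 with h1 | h1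
  · rw [sub_eq_zero] at h1
    rw [h1, DD_self, DD_self]
  · rw [Set.mem_singleton_iff, sub_eq_iff_eq_add] at h1
    rw [h1, add_comm]
    exact key s

end half

open Classical in
/-- the number of compatible orders -/
noncomputable def LL (σ : Fin K → Bool) (u : ZMod n → Fin K) : ℕ :=
  (univ.filter fun ρ : ZMod n ≃ Fin n => Comp σ u ρ).card

lemma LL_prim (h : Per u ⊆ {0}) : LL σ u = 1 := by
  classical
  obtain ⟨ρ, hρ⟩ := exists_prim (σ := σ) h
  unfold LL
  rw [card_eq_one]
  refine ⟨ρ, ?_⟩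
  ext ρ'
  rw [mem_filter, mem_singleton]
  constructor
  · rintro ⟨_, h1⟩
    exact unique_prim h h1 hρ
  · rintro rfl
    exact ⟨mem_univ _, hρ⟩

lemma LL_half {h : ℕ} (hn : n = h + h) (hP : Per u = {0, (h : ZMod n)}) :
    (LL σ u : ℤ) = 1 - EE σ u 0 h := by
  classical
  have hn0 : 0 < n := Nat.pos_of_ne_zero (NeZero.ne n)
  have hh : (h : ZMod n) ∈ Per u := by rw [hP]; right; rfl
  have hne : (h : ZMod n) ≠ 0 := by
    intro h1
    rw [ZMod.natCast_eq_zero_iff] at h1
    have := Nat.le_of_dvd (by omega) h1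
    omega
  rcases EE_or σ u 0 h with hE | hE
  · rw [hE]
    have : LL σ u = 0 := by
      unfold LL
      rw [card_eq_zero, filter_eq_empty_iff]
      intro ρ _ hc
      have := hc.per hne hh
      rw [hE] at this
      norm_num at this
    rw [this]
    rfl
  · rw [hE]
    obtain ⟨ρ, hρ⟩ := exists_half hn hP hE
    set ρ2 := (Equiv.addRight (h : ZMod n)).trans ρ with hρ2
    have hρ2c : Comp σ u ρ2 := shift_comp hh hρ
    have hD2 : DD ρ2 0 h = - DD ρ 0 h := by
      have : DD ρ2 0 h = DD ρ (0 + h) (h + h) := rfl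
      rw [this]
      have e : (h : ZMod n) + h = 0 := by
        have : ((h + h : ℕ) : ZMod n) = 0 := by rw [← hn]; exact ZMod.natCast_self n
        rw [← this]; push_cast; ring
      rw [e, zero_add, DD_swap]
    have hD0 := DD_cases ρ (fun h1 => hne h1.symm : (0 : ZMod n) ≠ h)
    have : LL σ u = 2 := by
      unfold LL
      rw [card_eq_two]
      refine ⟨ρ, ρ2, ?_, ?_⟩
      · intro h1
        rw [← h1] at hD2
        rcases hD0 with h | h <;> rw [h] at hD2 <;> norm_num at hD2
      · ext ρ'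
        rw [mem_filter, mem_insert, mem_singleton]
        constructor
        · rintro ⟨_, h1⟩
          have hD' := DD_cases ρ' (fun h1 => hne h1.symm : (0 : ZMod n) ≠ h)
          by_cases h2 : DD ρ' 0 h = DD ρ 0 h
          · exact Or.inl (unique_half hn hP h1 hρ h2)
          · refine Or.inr (unique_half hn hP h1 hρ2c ?_)
            rw [hD2]
            rcases hD0 with h3 | h3 <;> rcases hD' with h4 | h4 <;> rw [h3, h4] at h2 ⊢
            · exact absurd rfl h2
            · rfl
            · exact absurd rfl h2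
        · rintro (rfl | rfl)
          · exact ⟨mem_univ _, hρ⟩
          · exact ⟨mem_univ _, hρ2c⟩
    rw [this]
    rfl

/-- if there is a compatible order then the periods are trivial or half of the length -/
lemma per_of_comp {ρ : ZMod n ≃ Fin n} (hc : Comp σ u ρ) :
    Per u ⊆ {0} ∨ ∃ h, n = h + h ∧ Per u = {0, (h : ZMod n)} := by
  by_cases hP : Per u ⊆ {0}
  · exact Or.inl hP
  right
  rw [Set.not_subset] at hP
  obtain ⟨a, ha, ha0⟩ := hP
  have hn0 : 0 < n := Nat.pos_of_ne_zero (NeZero.ne n)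
  have key : ∀ b ∈ Per u, b ≠ 0 → n = b.val + b.val := by
    intro b hb hb0
    have h1 := hc.two (p := b.val) (by rw [ZMod.natCast_zmod_val]; exact hb)
    rw [ZMod.natCast_eq_zero_iff] at h1
    have h2 := ZMod.val_lt b
    have h3 : 0 < b.val := by
      rw [Nat.pos_iff_ne_zero]
      intro h4
      exact hb0 ((ZMod.val_eq_zero b).mp h4)
    obtain ⟨c, hcc⟩ := h1
    have h4 : c < 2 := by
      by_contra h5
      push Not at h5
      have : n * 2 ≤ n * c := Nat.mul_le_mul_left n h5
      omega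
    interval_cases c
    · omega
    · omega
  have ha1 := key a ha (fun h => ha0 h)
  refine ⟨a.val, ha1, ?_⟩
  rw [ZMod.natCast_zmod_val]
  ext b
  rw [Set.mem_insert_iff, Set.mem_singleton_iff]
  constructor
  · intro hb
    by_cases hb0 : b = 0
    · exact Or.inl hb0
    · right
      have h1 := key b hb hb0
      apply ZMod.val_injective n
      omega
  · rintro (rfl | rfl)
    · exact zero_mem_Per
    · exact ha

end Pool.Agent.X71.Cc
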