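import Mathlib

/-!
# The number of labellings compatible with an up-down word
-/

set_option autoImplicit false

open Finset Function PowerSeries

namespace Pool.Agent.X71.Cc

/-- the alternating signature of size `K` starting with `b` -/
def altS (b : Bool) (K : ℕ) (i : Fin K) : Bool := if (i : ℕ) % 2 = 0 then b else !b

lemma altS_zero (b : Bool) (K : ℕ) : altS b (K + 1) 0 = b := by simp [altS]

lemma altS_succ (b : Bool) (K : ℕ) (i : Fin K) : altS b (K + 1) i.succ = altS (!b) K i := by
  unfold altS
  rw [Fin.val_succ]
  rcases Nat.mod_two_eq_zero_or_one i with h | h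
  · rw [if_neg (by omega), if_pos h]
  · rw [if_pos (by omega), if_neg (by omega), Bool.not_not]

/-- the number of labellings of the positions of an up-down word with first label `c` -/
def cnt {K : ℕ} (σ : Fin K → Bool) : List Bool → Fin K → ℕ
  | [], _ => 1
  | x :: l, c => ∑ c', if c < c' ∨ (c = c' ∧ σ c = x) then cnt σ l c' else 0

/-- the number of labellings of the positions of an up-down word -/
def GG (b : Bool) (K : ℕ) (l : List Bool) : ℕ := ∑ c, cnt (altS b K) l c

lemma cnt_succ {K : ℕ} (σ : Fin (K + 1) → Bool) (l : List Bool) (c : Fin K) :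
    cnt σ l c.succ = cnt (fun i => σ i.succ) l c := by
  induction l generalizing c with
  | nil => rfl
  | cons x l ih =>
    rw [cnt, cnt, Fin.sum_univ_succ, if_neg, zero_add]
    · refine sum_congr rfl fun c' _ => ?_
      simp only [ih, Fin.succ_lt_succ_iff, Fin.succ_inj]
    · rintro (h | ⟨h, _⟩)
      · exact absurd h (Fin.not_lt_zero _)
      · exact Fin.succ_ne_zero c h

lemma GG_tail (b : Bool) (K : ℕ) (l : List Bool) :
    ∑ c : Fin K, cnt (altS b (K + 1)) l c.succ = GG (!b) K l := by
  unfold GG
  refine sum_congr rfl fun c _ => ?_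
  rw [cnt_succ]
  congr 1
  funext i
  exact altS_succ b K i

lemma GG_zero (b : Bool) (l : List Bool) : GG b 0 l = 0 := by
  unfold GG
  exact Finset.sum_of_isEmpty _

lemma GG_nil (b : Bool) (K : ℕ) : GG b K [] = K := by
  unfold GG cnt
  simp

lemma GG_cons (b : Bool) (K : ℕ) (x : Bool) (l : List Bool) :
    GG b (K + 1) (x :: l) = (if b = x then GG b (K + 1) l else GG (!b) K l) +
      GG (!b) K (x :: l) := by
  rw [← GG_tail b K (x :: l), GG, Fin.sum_univ_succ]
  congr 1
  rw [cnt, Fin.sum_univ_succ, altS_zero]
  have h1 : ∀ c' : Fin K, (if (0 : Fin (K + 1)) < c'.succ ∨ (0 = c'.succ ∧ b = x) then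
      cnt (altS b (K + 1)) l c'.succ else 0) = cnt (altS b (K + 1)) l c'.succ :=
    fun c' => if_pos (Or.inl (Fin.succ_pos c'))
  rw [sum_congr rfl fun c' _ => h1 c', GG_tail]
  split_ifs with h2 h3 h3
  · rw [← GG_tail b K l, ← Fin.sum_univ_succ (fun c => cnt (altS b (K + 1)) l c)]
    rfl
  · rcases h2 with h2 | h2
    · exact absurd h2 (lt_irrefl _)
    · exact absurd h2.2 h3
  · exact absurd (Or.inr ⟨rfl, h3⟩) h2
  · rw [zero_add]

/-- the number of switches of the word `b :: l` -/
def sw : Bool → List Bool → ℕ
  | _, [] => 0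
  | b, x :: l => sw x l + (if b = x then 0 else 1)

lemma sw_le (b : Bool) (l : List Bool) : sw b l ≤ l.length := by
  induction l generalizing b with
  | nil => exact le_rfl
  | cons x l ih =>
    rw [sw, List.length_cons]
    have := ih x
    split_ifs <;> omega

lemma GG_pos (b : Bool) (K : ℕ) (l : List Bool) : 0 < GG b K l ↔ sw b l < K := by
  induction l generalizing b K with
  | nil => rw [GG_nil, sw]
  | cons x l ih =>
    induction K generalizing b with
    | zero => simp [GG_zero]
    | succ K ihK =>
      rw [GG_cons, Nat.add_pos_iff_pos_or_pos, ihK (!b)]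
      by_cases h : b = x
      · subst h
        rw [if_pos rfl, ih, sw, sw, if_neg (by cases b <;> simp), if_pos rfl]
        omega
      · have hx : x = !b := by cases b <;> cases x <;> simp_all
        subst hx
        rw [if_neg h, ih, sw, sw, if_pos rfl, if_neg h]
        omega

/-- the generating function -/
noncomputable def PS (b : Bool) (l : List Bool) : ℤ⟦X⟧ := PowerSeries.mk fun K => (GG b K l : ℤ)

lemma PS_same (b : Bool) (l : List Bool) : PS b (b :: l) = PS b l + X * PS (!b) (b :: l) := by
  ext K
  rw [map_add]
  cases K with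
  | zero =>
    rw [PowerSeries.coeff_zero_X_mul]
    simp [PS, GG_zero]
  | succ K =>
    rw [PowerSeries.coeff_succ_X_mul]
    unfold PS
    rw [PowerSeries.coeff_mk, PowerSeries.coeff_mk, PowerSeries.coeff_mk, GG_cons, if_pos rfl]
    push_cast
    rfl

lemma PS_diff (b : Bool) (l : List Bool) :
    PS (!b) (b :: l) = X * PS b l + X * PS b (b :: l) := by
  ext K
  rw [map_add]
  cases K with
  | zero =>
    rw [PowerSeries.coeff_zero_X_mul, PowerSeries.coeff_zero_X_mul]
    simp [PS, GG_zero]
  | succ K =>
    rw [PowerSeries.coeff_succ_X_mul, PowerSeries.coeff_succ_X_mul]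
    unfold PS
    rw [PowerSeries.coeff_mk, PowerSeries.coeff_mk, PowerSeries.coeff_mk, GG_cons,
      if_neg (by cases b <;> simp), Bool.not_not]
    push_cast
    rfl

/-- the generating function of the empty word -/
noncomputable def P0 : ℤ⟦X⟧ := PowerSeries.mk fun K => (K : ℤ)

lemma P0_ne : P0 ≠ 0 := by
  intro h
  have := congrArg (PowerSeries.coeff 1) h
  rw [P0, PowerSeries.coeff_mk] at this
  simp at this

/-- the contribution of a word with `s` switches -/
noncomputable def TT (m s : ℕ) : ℤ⟦X⟧ := X ^ s * ((2 : ℤ⟦X⟧) ^ s * (1 + X ^ 2) ^ (m - s))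

lemma PS_eq (b : Bool) (l : List Bool) :
    (1 - X ^ 2) ^ l.length * PS b l = TT l.length (sw b l) * P0 := by
  induction l generalizing b with
  | nil =>
    rw [TT, sw]
    simp only [List.length_nil, pow_zero, one_mul, Nat.sub_self]
    unfold PS P0
    congr 1
    funext K
    rw [GG_nil]
  | cons x l ih =>
    have h0 := ih x
    have hle := sw_le x l
    by_cases h : b = x
    · subst h
      have h1 := PS_same b l
      have h2 := PS_diff b l
      have h3 : (1 - X ^ 2) * PS b (b :: l) = (1 + X ^ 2) * PS b l := by
        rw [h2] at h1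
        linear_combination h1
      rw [List.length_cons, pow_succ, mul_assoc, h3, sw, if_pos rfl, add_zero]
      have h4 : TT (l.length + 1) (sw b l) = (1 + X ^ 2) * TT l.length (sw b l) := by
        unfold TT
        rw [show l.length + 1 - sw b l = (l.length - sw b l) + 1 by omega, pow_succ]
        ring
      rw [h4]
      linear_combination (1 + X ^ 2) * h0
    · have hx : b = !x := by cases b <;> cases x <;> simp_all
      subst hx
      have h1 := PS_same x l
      have h2 := PS_diff x l
      have h3 : (1 - X ^ 2) * PS (!x) (x :: l) = 2 * X * PS x l := by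
        rw [h1] at h2
        linear_combination h2
      rw [List.length_cons, pow_succ, mul_assoc, h3, sw, if_neg h]
      have h4 : TT (l.length + 1) (sw x l + 1) = 2 * X * TT l.length (sw x l) := by
        unfold TT
        rw [show l.length + 1 - (sw x l + 1) = l.length - sw x l by omega]
        ring
      rw [h4]
      linear_combination (2 * X) * h0

lemma coeff_TT_lt {m s t : ℕ} (h : t < s) : PowerSeries.coeff t (TT m s) = 0 := by
  rw [TT, PowerSeries.coeff_X_pow_mul', if_neg (by omega)]

lemma coeff_TT_self (m s : ℕ) : PowerSeries.coeff s (TT m s) = 2 ^ s := by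
  rw [TT, PowerSeries.coeff_X_pow_mul', if_pos le_rfl, Nat.sub_self]
  have h2 : (PowerSeries.constantCoeff (R := ℤ)) 2 = 2 := map_ofNat _ 2
  simp [h2]

lemma coef_zero {m : ℕ} (f : ℕ → ℤ)
    (h : ∑ s ∈ range (m + 1), PowerSeries.C (f s) * TT m s = 0) : ∀ s, s ≤ m → f s = 0 := by
  intro s
  induction s using Nat.strong_induction_on with
  | _ s ih =>
    intro hs
    have h1 := congrArg (PowerSeries.coeff s) h
    rw [map_sum, map_zero, sum_eq_single s] at h1
    · rw [PowerSeries.coeff_C_mul, coeff_TT_self] at h1
      rcases mul_eq_zero.mp h1 with h2 | h2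
      · exact h2
      · exact absurd h2 (by positivity)
    · intro t _ hts
      rcases lt_or_gt_of_ne hts with h2 | h2
      · rw [ih t h2 (by omega), map_zero, zero_mul, map_zero]
      · rw [PowerSeries.coeff_C_mul, coeff_TT_lt h2, mul_zero]
    · intro h2
      exact absurd (mem_range.mpr (by omega)) h2

/-- the switch statistics are equidistributed if all the counts agree -/
theorem equidist {ι : Type*} (A : Finset ι) (m : ℕ) (l : ι → List Bool)
    (hl : ∀ i ∈ A, (l i).length = m)
    (h : ∀ K, ∑ i ∈ A, GG true K (l i) = ∑ i ∈ A, GG false K (l i)) (s : ℕ) :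
    (A.filter fun i => sw true (l i) = s).card = (A.filter fun i => sw false (l i) = s).card := by
  have hmaps : ∀ b, ∀ i ∈ A, sw b (l i) ∈ range (m + 1) := by
    intro b i hi
    have := sw_le b (l i)
    rw [hl i hi] at this
    exact mem_range.mpr (by omega)
  have h1 : ∀ b, (1 - X ^ 2) ^ m * ∑ i ∈ A, PS b (l i) =
      (∑ s ∈ range (m + 1), PowerSeries.C ((A.filter fun i => sw b (l i) = s).card : ℤ) *
        TT m s) * P0 := by
    intro b
    rw [mul_sum, sum_mul]
    have h2 : ∀ i ∈ A, (1 - X ^ 2) ^ m * PS b (l i) = TT m (sw b (l i)) * P0 := by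
      intro i hi
      have := PS_eq b (l i)
      rw [hl i hi] at this
      exact this
    rw [sum_congr rfl h2, ← sum_fiberwise_of_maps_to (hmaps b)]
    refine sum_congr rfl fun s _ => ?_
    rw [sum_congr rfl (g := fun _ => TT m s * P0) fun i hi => by rw [(mem_filter.mp hi).2],
      sum_const, nsmul_eq_mul]
    push_cast
    rw [map_natCast]
    ring
  have h2 : ∑ i ∈ A, PS true (l i) = ∑ i ∈ A, PS false (l i) := by
    ext K
    rw [map_sum, map_sum]
    unfold PS
    simp only [PowerSeries.coeff_mk]
    have := h K
    exact_mod_cast this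
  have h3 := h1 true
  rw [h2, h1 false] at h3
  have h4 := mul_right_cancel₀ P0_ne h3
  have h5 := coef_zero (m := m) (fun s => ((A.filter fun i => sw false (l i) = s).card : ℤ) -
    ((A.filter fun i => sw true (l i) = s).card : ℤ)) (by
      have : ∀ s, PowerSeries.C (((A.filter fun i => sw false (l i) = s).card : ℤ) -
        ((A.filter fun i => sw true (l i) = s).card : ℤ)) * TT m s =
        PowerSeries.C ((A.filter fun i => sw false (l i) = s).card : ℤ) * TT m s -
        PowerSeries.C ((A.filter fun i => sw true (l i) = s).card : ℤ) * TT m s := by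
        intro s
        rw [map_sub, sub_mul]
      rw [sum_congr rfl fun s _ => this s, sum_sub_distrib, h4, sub_self])
  by_cases hs : s ≤ m
  · have := h5 s hs
    have h6 : ((A.filter fun i => sw false (l i) = s).card : ℤ) =
      ((A.filter fun i => sw true (l i) = s).card : ℤ) := by linarith
    exact_mod_cast h6.symm
  · have h7 : ∀ b, (A.filter fun i => sw b (l i) = s).card = 0 := by
      intro b
      rw [card_eq_zero, filter_eq_empty_iff]
      intro i hi he
      have := mem_range.mp (hmaps b i hi)
      omega
    rw [h7, h7]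

end Pool.Agent.X71.Cc
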