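import Pool.Agent.X71.Cc.Triples
import Pool.Agent.X71.Cc.Segs

/-!
# The final count
-/

set_option autoImplicit false
set_option linter.unusedSectionVars false
set_option linter.style.haveILetI false

open Finset Function

namespace Pool.Agent.X71.Cc

/-- the local compatibility condition -/
def PP {m K : ℕ} (σ : Fin K → Bool) (x : Fin m → Bool) (w : Fin (m + 1) → Fin K) : Prop :=
  ∀ i : Fin m, w i.castSucc < w i.succ ∨ (w i.castSucc = w i.succ ∧ σ (w i.castSucc) = x i)

/-- the up-down word of a permutation -/
def stp {m : ℕ} (π : Equiv.Perm (Fin (m + 1))) (i : Fin m) : Bool :=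
  decide (π i.castSucc < π i.succ)

lemma compW_iff_PP {m K : ℕ} (σ : Fin K → Bool) (π : Equiv.Perm (Fin (m + 1)))
    (w : Fin (m + 1) → Fin K) : CompW σ π w ↔ PP σ (stp π) w := by
  constructor
  · intro h i
    obtain ⟨h1, h2⟩ := h i.castSucc i.succ (Fin.castSucc_lt_succ)
    rcases lt_or_eq_of_le h1 with h3 | h3
    · exact Or.inl h3
    · right
      refine ⟨h3, ?_⟩
      have h4 := h2 h3
      unfold stp
      split_ifs at h4 with h5
      · rw [h5, decide_eq_true h4]
      · rw [Bool.eq_false_of_not_eq_true h5, decide_eq_false (not_lt.mpr h4.le)]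
  · intro h
    have hmono : Monotone w := by
      rw [Fin.monotone_iff_le_succ]
      intro i
      rcases h i with h1 | h1
      · exact h1.le
      · exact h1.1.le
    intro i j
    induction j using Fin.induction with
    | zero => intro hij; exact absurd hij (Fin.not_lt_zero _)
    | succ k ih =>
      intro hij
      refine ⟨hmono hij.le, fun he => ?_⟩
      have hik : i ≤ k.castSucc := Fin.le_castSucc_iff.mpr hij
      have h1 : w i ≤ w k.castSucc := hmono hik
      have h2 : w k.castSucc ≤ w k.succ := hmono (Fin.castSucc_lt_succ).le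
      have h3 : w i = w k.castSucc := le_antisymm h1 (he ▸ h2)
      have h4 : w k.castSucc = w k.succ := h3 ▸ he
      have h5 : σ (w i) = stp π k := by
        rcases h k with h6 | h6
        · exact absurd h4 h6.ne
        · rw [h3]; exact h6.2
      have hne : π k.castSucc ≠ π k.succ := fun h6 => (Fin.castSucc_lt_succ).ne (π.injective h6)
      have hstep : if σ (w i) = true then π k.castSucc < π k.succ
          else π k.succ < π k.castSucc := by
        rw [h5]
        unfold stp
        split_ifs with h6
        · exact of_decide_eq_true h6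
        · have h7 := of_decide_eq_false (Bool.eq_false_of_not_eq_true h6)
          exact lt_of_le_of_ne (not_lt.mp h7) (Ne.symm hne)
      rcases lt_or_eq_of_le hik with h6 | h6
      · have h7 := (ih h6).2 h3
        split_ifs at h7 hstep ⊢ with h8
        · exact h7.trans hstep
        · exact hstep.trans h7
      · rw [h6]
        rw [h6] at hstep
        exact hstep

open Classical in
lemma card_PP {m K : ℕ} (σ : Fin K → Bool) (x : Fin m → Bool) (c : Fin K) :
    (univ.filter fun w : Fin (m + 1) → Fin K => w 0 = c ∧ PP σ x w).card =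
      cnt σ (List.ofFn x) c := by
  induction m generalizing c with
  | zero =>
    rw [List.ofFn_zero, cnt, card_eq_one]
    refine ⟨fun _ => c, ?_⟩
    ext w
    rw [mem_filter, mem_singleton]
    constructor
    · rintro ⟨_, h1, _⟩
      funext i
      have h2 : i = 0 := Fin.ext (by omega)
      rw [h2, h1]
    · rintro rfl
      exact ⟨mem_univ _, rfl, fun i => i.elim0⟩
  | succ m ih =>
    rw [List.ofFn_succ, cnt]
    have h1 : (univ.filter fun w : Fin (m + 1 + 1) → Fin K => w 0 = c ∧ PP σ x w) =
        (univ.filter fun w : Fin (m + 1) → Fin K =>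
          (c < w 0 ∨ (c = w 0 ∧ σ c = x 0)) ∧ PP σ (fun i => x i.succ) w).image
          (fun w => (Fin.cons c w : Fin (m + 1 + 1) → Fin K)) := by
      ext w
      rw [mem_filter, mem_image]
      constructor
      · rintro ⟨_, h2, h3⟩
        refine ⟨Fin.tail w, ?_, ?_⟩
        · rw [mem_filter]
          refine ⟨mem_univ _, ?_, ?_⟩
          · have := h3 0
            rw [Fin.castSucc_zero, h2] at this
            exact this
          · intro i
            exact h3 i.succ
        · rw [← h2]
          exact Fin.cons_self_tail w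
      · rintro ⟨w', h2, rfl⟩
        rw [mem_filter] at h2
        refine ⟨mem_univ _, rfl, ?_⟩
        intro i
        refine Fin.cases ?_ (fun i => ?_) i
        · exact h2.2.1
        · exact h2.2.2 i
    rw [h1, card_image_of_injective _ (Fin.cons_right_injective (α := fun _ => Fin K) c)]
    rw [card_eq_sum_card_fiberwise (f := fun w => w 0) (t := univ) (fun _ _ => mem_univ _)]
    refine sum_congr rfl fun c' _ => ?_
    rw [filter_filter]
    split_ifs with h2
    · rw [← ih]
      congr 1
      ext w
      rw [mem_filter, mem_filter]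
      constructor
      · rintro ⟨h3, ⟨_, h4⟩, h5⟩
        exact ⟨h3, h5, h4⟩
      · rintro ⟨h3, h4, h5⟩
        exact ⟨h3, ⟨by rw [h4]; exact h2, h5⟩, h4⟩
    · rw [card_eq_zero, filter_eq_empty_iff]
      rintro w _ ⟨⟨h3, _⟩, h4⟩
      rw [h4] at h3
      exact h2 h3

open Classical in
lemma card_CompW {m K : ℕ} (b : Bool) (π : Equiv.Perm (Fin (m + 1))) :
    (univ.filter fun w : Fin (m + 1) → Fin K => CompW (altS b K) π w).card =
      GG b K (List.ofFn (stp π)) := by
  rw [GG, card_eq_sum_card_fiberwise (f := fun w => w 0) (t := univ) (fun _ _ => mem_univ _)]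
  refine sum_congr rfl fun c _ => ?_
  rw [filter_filter, ← card_PP]
  congr 1
  ext w
  rw [mem_filter, mem_filter, compW_iff_PP, and_comm (a := PP _ _ _)]

lemma sum_altS (b : Bool) (K : ℕ) :
    ∑ c, sg (altS b K c) = if K % 2 = 0 then 0 else sg b := by
  induction K generalizing b with
  | zero => simp
  | succ K ih =>
    rw [Fin.sum_univ_succ, altS_zero]
    have : ∀ c : Fin K, sg (altS b (K + 1) c.succ) = sg (altS (!b) K c) := by
      intro c; rw [altS_succ]
    rw [sum_congr rfl fun c _ => this c, ih]
    have h2 : sg (!b) = - sg b := by cases b <;> simp [sg]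
    rcases Nat.mod_two_eq_zero_or_one K with h | h
    · rw [if_pos h, if_neg (by omega), add_zero]
    · rw [if_neg (by omega), if_pos (by omega), h2]
      ring

open Classical in
theorem sum_GG {m : ℕ} (hm : 3 ≤ m + 1) (K : ℕ) :
    ∑ π ∈ univ.filter (fun π : Equiv.Perm (Fin (m + 1)) => Cyc π),
      GG true K (List.ofFn (stp π)) =
    ∑ π ∈ univ.filter (fun π : Equiv.Perm (Fin (m + 1)) => Cyc π),
      GG false K (List.ofFn (stp π)) := by
  have h1 := triples (n := m + 1) (altS true K)
  have h2 := triples (n := m + 1) (altS false K)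
  have h3 := sum_LL (n := m + 1) (σ := altS true K) (σ' := altS false K)
    (by intro c; unfold altS; split_ifs <;> rfl)
    (by
      rw [sum_altS]
      split_ifs
      · exact Or.inl rfl
      · right; exact sg_or true) hm
  rw [← h1, ← h2] at h3
  have h4 := Nat.eq_of_mul_eq_mul_left (Nat.succ_pos m) h3
  rw [sum_congr rfl fun π _ => card_CompW true π, sum_congr rfl fun π _ => card_CompW false π] at h4
  exact h4

open Classical in
theorem card_sw {m k : ℕ} (hk : 2 ≤ k) :
    (univ.filter fun π : Equiv.Perm (Fin (m + 1)) =>
      Cyc π ∧ sw true (List.ofFn (stp π)) < k).card =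
    (univ.filter fun π : Equiv.Perm (Fin (m + 1)) =>
      Cyc π ∧ sw false (List.ofFn (stp π)) < k).card := by
  rcases Nat.lt_or_ge (m + 1) 3 with hm | hm
  · congr 1
    ext π
    rw [mem_filter, mem_filter]
    have h1 : ∀ b, sw b (List.ofFn (stp π)) < k := by
      intro b
      have := sw_le b (List.ofFn (stp π))
      rw [List.length_ofFn] at this
      omega
    simp only [h1]
  · have h1 := equidist (univ.filter (fun π : Equiv.Perm (Fin (m + 1)) => Cyc π)) m
      (fun π => List.ofFn (stp π)) (fun π _ => List.length_ofFn) (sum_GG hm)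
    have h2 : ∀ b, (univ.filter fun π : Equiv.Perm (Fin (m + 1)) =>
        Cyc π ∧ sw b (List.ofFn (stp π)) < k).card =
        ∑ s ∈ range k, ((univ.filter (fun π : Equiv.Perm (Fin (m + 1)) => Cyc π)).filter
          fun π => sw b (List.ofFn (stp π)) = s).card := by
      intro b
      rw [← filter_filter, card_eq_sum_card_fiberwise
        (f := fun π : Equiv.Perm (Fin (m + 1)) => sw b (List.ofFn (stp π))) (t := range k)]
      · refine sum_congr rfl fun s hs => ?_
        congr 1
        ext π
        rw [mem_filter, mem_filter, mem_filter (s := univ.filter _)]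
        rw [mem_range] at hs
        constructor
        · rintro ⟨⟨h3, _⟩, h4⟩
          exact ⟨h3, h4⟩
        · rintro ⟨h3, h4⟩
          exact ⟨⟨h3, by rw [h4]; exact hs⟩, h4⟩
      · intro π hπ
        have h3 := (mem_filter.mp (mem_coe.mp hπ)).2
        exact mem_coe.mpr (mem_range.mpr h3)
    rw [h2, h2]
    exact sum_congr rfl fun s _ => h1 s

end Pool.Agent.X71.Cc
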