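import Mathlib

/-!
# Linear orders compatible with a signed cyclic word
-/

set_option autoImplicit false

open Finset Function

namespace Pool.Agent.X71.Cc

variable {n K : ℕ} [NeZero n]

/-- the sign of a boolean -/
def sg (b : Bool) : ℤ := if b then 1 else -1

lemma sg_sq (b : Bool) : sg b * sg b = 1 := by cases b <;> simp [sg]

lemma sg_or (b : Bool) : sg b = 1 ∨ sg b = -1 := by cases b <;> simp [sg]

lemma prod_sg_or {ι : Type*} (s : Finset ι) (f : ι → Bool) :
    ∏ i ∈ s, sg (f i) = 1 ∨ ∏ i ∈ s, sg (f i) = -1 := by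
  classical
  induction s using Finset.induction_on with
  | empty => left; simp
  | insert a s ha ih =>
    rw [prod_insert ha]
    rcases ih with h | h <;> rcases sg_or (f a) with h' | h' <;> rw [h, h'] <;> simp

/-- `ρ` orders the positions of the cyclic word `u` compatibly with `u` and the signs `σ` -/
def Comp (σ : Fin K → Bool) (u : ZMod n → Fin K) (ρ : ZMod n ≃ Fin n) : Prop :=
  (∀ s t, u s < u t → ρ s < ρ t) ∧
  (∀ s t, u s = u t → ρ s < ρ t →
    if σ (u s) = true then ρ (s + 1) < ρ (t + 1) else ρ (t + 1) < ρ (s + 1))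

/-- the comparison of two positions -/
def DD (ρ : ZMod n ≃ Fin n) (s t : ZMod n) : ℤ :=
  if ρ s < ρ t then 1 else if ρ t < ρ s then -1 else 0

lemma DD_lt {ρ : ZMod n ≃ Fin n} {s t : ZMod n} (h : ρ s < ρ t) : DD ρ s t = 1 := by
  rw [DD, if_pos h]

lemma DD_gt {ρ : ZMod n ≃ Fin n} {s t : ZMod n} (h : ρ t < ρ s) : DD ρ s t = -1 := by
  rw [DD, if_neg (not_lt.mpr h.le), if_pos h]

lemma DD_self (ρ : ZMod n ≃ Fin n) (s : ZMod n) : DD ρ s s = 0 := by
  rw [DD, if_neg (lt_irrefl _), if_neg (lt_irrefl _)]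

lemma DD_eq_one {ρ : ZMod n ≃ Fin n} {s t : ZMod n} : DD ρ s t = 1 ↔ ρ s < ρ t := by
  unfold DD
  split_ifs with h1 h2 <;> simp [h1]

lemma DD_cases (ρ : ZMod n ≃ Fin n) {s t : ZMod n} (h : s ≠ t) :
    DD ρ s t = 1 ∨ DD ρ s t = -1 := by
  rcases lt_trichotomy (ρ s) (ρ t) with h1 | h1 | h1
  · exact Or.inl (DD_lt h1)
  · exact absurd (ρ.injective h1) h
  · exact Or.inr (DD_gt h1)

lemma DD_swap (ρ : ZMod n ≃ Fin n) (s t : ZMod n) : DD ρ t s = - DD ρ s t := by
  rcases lt_trichotomy (ρ s) (ρ t) with h1 | h1 | h1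
  · rw [DD_lt h1, DD_gt h1]
  · rw [ρ.injective h1, DD_self]; rfl
  · rw [DD_lt h1, DD_gt h1]; rfl

variable {σ : Fin K → Bool} {u : ZMod n → Fin K} {ρ ρ' : ZMod n ≃ Fin n}

lemma Comp.step (hc : Comp σ u ρ) {s t : ZMod n} (h : u s = u t) :
    DD ρ s t = sg (σ (u s)) * DD ρ (s + 1) (t + 1) := by
  rcases lt_trichotomy (ρ s) (ρ t) with h1 | h1 | h1
  · have h2 := hc.2 s t h h1
    rw [DD_lt h1]
    split_ifs at h2 with h3
    · rw [DD_lt h2, h3]; rfl
    · rw [DD_gt h2, Bool.eq_false_of_not_eq_true h3]; rfl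
  · rw [ρ.injective h1, DD_self, DD_self, mul_zero]
  · have h2 := hc.2 t s h.symm h1
    rw [DD_gt h1]
    rw [← h] at h2
    split_ifs at h2 with h3
    · rw [DD_gt h2, h3]; rfl
    · rw [DD_lt h2, Bool.eq_false_of_not_eq_true h3]; rfl

/-- the product of the signs of the word from a position on -/
def EE (σ : Fin K → Bool) (u : ZMod n → Fin K) (s : ZMod n) (j : ℕ) : ℤ :=
  ∏ i ∈ range j, sg (σ (u (s + i)))

lemma EE_or (σ : Fin K → Bool) (u : ZMod n → Fin K) (s : ZMod n) (j : ℕ) :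
    EE σ u s j = 1 ∨ EE σ u s j = -1 := prod_sg_or _ _

lemma EE_sq (σ : Fin K → Bool) (u : ZMod n → Fin K) (s : ZMod n) (j : ℕ) :
    EE σ u s j * EE σ u s j = 1 := by
  rcases EE_or σ u s j with h | h <;> rw [h] <;> simp

lemma EE_zero (σ : Fin K → Bool) (u : ZMod n → Fin K) (s : ZMod n) : EE σ u s 0 = 1 := by
  simp [EE]

lemma EE_succ (σ : Fin K → Bool) (u : ZMod n → Fin K) (s : ZMod n) (j : ℕ) :
    EE σ u s (j + 1) = EE σ u s j * sg (σ (u (s + j))) := by
  rw [EE, EE, prod_range_succ]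

lemma EE_succ' (σ : Fin K → Bool) (u : ZMod n → Fin K) (s : ZMod n) (j : ℕ) :
    EE σ u s (j + 1) = sg (σ (u s)) * EE σ u (s + 1) j := by
  rw [EE, EE, prod_range_succ', mul_comm]
  congr 1
  · simp
  · refine prod_congr rfl fun i _ => ?_
    congr 3
    push_cast
    ring

lemma EE_add (σ : Fin K → Bool) (u : ZMod n → Fin K) (s : ZMod n) (j k : ℕ) :
    EE σ u s (j + k) = EE σ u s j * EE σ u (s + j) k := by
  rw [EE, EE, EE, prod_range_add]
  congr 1
  refine prod_congr rfl fun i _ => ?_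
  congr 3
  push_cast
  ring

lemma EE_congr {s t : ZMod n} {j : ℕ} (h : ∀ i < j, u (s + (i : ℕ)) = u (t + (i : ℕ))) :
    EE σ u s j = EE σ u t j := by
  unfold EE
  refine prod_congr rfl fun i hi => ?_
  rw [h i (mem_range.mp hi)]

lemma Comp.iter (hc : Comp σ u ρ) {s t : ZMod n} {j : ℕ}
    (h : ∀ i < j, u (s + (i : ℕ)) = u (t + (i : ℕ))) :
    DD ρ s t = EE σ u s j * DD ρ (s + j) (t + j) := by
  induction j with
  | zero => simp [EE_zero]
  | succ j ih =>
    rw [ih fun i hi => h i (by omega), hc.step (h j (by omega)), EE_succ, mul_assoc]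
    congr 3
    · push_cast; ring
    · push_cast; ring

lemma Comp.per (hc : Comp σ u ρ) {p : ℕ} (hp : (p : ZMod n) ≠ 0)
    (hper : ∀ t, u (t + p) = u t) : EE σ u 0 p = -1 := by
  rcases EE_or σ u 0 p with h1 | h1
  swap
  · exact h1
  exfalso
  have hperj : ∀ (j : ℕ) (t : ZMod n), u (t + (j * p : ℕ)) = u t := by
    intro j
    induction j with
    | zero => intro t; simp
    | succ j ih =>
      intro t
      have : t + ((j + 1) * p : ℕ) = (t + (j * p : ℕ)) + p := by push_cast; ring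
      rw [this, hper, ih]
  set δ := DD ρ 0 p with hδ
  have hstep : ∀ j : ℕ, DD ρ ((j * p : ℕ) : ZMod n) (((j + 1) * p : ℕ) : ZMod n) = δ := by
    intro j
    induction j with
    | zero => simp [hδ]
    | succ j ih =>
      rw [← ih]
      have h2 := hc.iter (s := ((j * p : ℕ) : ZMod n)) (t := (((j + 1) * p : ℕ) : ZMod n)) (j := p)
        (fun i _ => by
          have e1 : ((j * p : ℕ) : ZMod n) + (i : ℕ) = (i : ℕ) + ((j * p : ℕ) : ZMod n) := by ring
          have e2 : (((j + 1) * p : ℕ) : ZMod n) + (i : ℕ) =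
            (i : ℕ) + (((j + 1) * p : ℕ) : ZMod n) := by ring
          rw [e1, e2, hperj, hperj])
      have h3 : EE σ u ((j * p : ℕ) : ZMod n) p = EE σ u 0 p := by
        refine EE_congr fun i _ => ?_
        have e1 : ((j * p : ℕ) : ZMod n) + (i : ℕ) = (i : ℕ) + ((j * p : ℕ) : ZMod n) := by ring
        rw [e1, hperj, zero_add]
      rw [h3, h1, one_mul] at h2
      rw [h2]
      congr 1
      · push_cast; ring
      · push_cast; ring
  have hδ' : δ = 1 ∨ δ = -1 := DD_cases ρ (fun h => hp h.symm)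
  rcases hδ' with h2 | h2
  · have h3 : ∀ j : ℕ, ((ρ 0 : Fin n) : ℕ) + j ≤ (ρ ((j * p : ℕ) : ZMod n) : ℕ) := by
      intro j
      induction j with
      | zero => simp
      | succ j ih =>
        have h4 : ρ ((j * p : ℕ) : ZMod n) < ρ (((j + 1) * p : ℕ) : ZMod n) :=
          DD_eq_one.mp ((hstep j).trans h2)
        have h5 : ((ρ ((j * p : ℕ) : ZMod n) : Fin n) : ℕ) <
          ((ρ (((j + 1) * p : ℕ) : ZMod n) : Fin n) : ℕ) := h4
        omega
    have h4 := h3 n
    have h5 := (ρ ((n * p : ℕ) : ZMod n)).2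
    omega
  · have h3 : ∀ j : ℕ, ((ρ ((j * p : ℕ) : ZMod n) : Fin n) : ℕ) + j ≤ (ρ 0 : ℕ) := by
      intro j
      induction j with
      | zero => simp
      | succ j ih =>
        have h4 : ρ (((j + 1) * p : ℕ) : ZMod n) < ρ ((j * p : ℕ) : ZMod n) := by
          rw [← DD_eq_one, DD_swap, hstep j, h2]; rfl
        have h5 : ((ρ (((j + 1) * p : ℕ) : ZMod n) : Fin n) : ℕ) <
          ((ρ ((j * p : ℕ) : ZMod n) : Fin n) : ℕ) := h4
        omega
    have h4 := h3 n
    have h5 := (ρ 0).2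
    omega

lemma EE_two {p : ℕ} (hper : ∀ t, u (t + p) = u t) : EE σ u 0 (p + p) = 1 := by
  rw [EE_add]
  have : EE σ u (0 + (p : ZMod n)) p = EE σ u 0 p := by
    refine EE_congr fun i _ => ?_
    have e1 : (0 : ZMod n) + p + (i : ℕ) = (0 + (i : ℕ)) + p := by ring
    rw [e1, hper]
  rw [this, EE_sq]

lemma Comp.two (hc : Comp σ u ρ) {p : ℕ} (hper : ∀ t, u (t + p) = u t) :
    ((p + p : ℕ) : ZMod n) = 0 := by
  by_contra h
  have h1 := hc.per h (fun t => by
    have : t + ((p + p : ℕ) : ZMod n) = t + p + p := by push_cast; ring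
    rw [this, hper, hper])
  rw [EE_two hper] at h1
  norm_num at h1

/-- two compatible orders agree if they agree on positions with equal futures -/
lemma Comp.uniq (hc : Comp σ u ρ) (hc' : Comp σ u ρ')
    (hD : ∀ s t, (∀ j : ℕ, u (s + j) = u (t + j)) → DD ρ s t = DD ρ' s t) : ρ = ρ' := by
  have hall : ∀ s t, DD ρ s t = DD ρ' s t := by
    intro s t
    by_cases h : ∀ j : ℕ, u (s + j) = u (t + j)
    · exact hD s t h
    push Not at h
    classical
    have h1 := Nat.find_spec h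
    have h2 : ∀ i < Nat.find h, u (s + (i : ℕ)) = u (t + (i : ℕ)) := by
      intro i hi
      have := Nat.find_min h hi
      push Not at this
      exact this
    rw [hc.iter h2, hc'.iter h2]
    congr 1
    rcases lt_or_gt_of_ne h1 with h3 | h3
    · rw [DD_lt (hc.1 _ _ h3), DD_lt (hc'.1 _ _ h3)]
    · rw [DD_gt (hc.1 _ _ h3), DD_gt (hc'.1 _ _ h3)]
  have hlt : ∀ s t, ρ s < ρ t ↔ ρ' s < ρ' t := by
    intro s t
    rw [← DD_eq_one, ← DD_eq_one, hall]
  let f : Fin n ≃o Fin n :=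
    { toEquiv := ρ.symm.trans ρ'
      map_rel_iff' := by
        intro a b
        show ρ' (ρ.symm a) ≤ ρ' (ρ.symm b) ↔ a ≤ b
        rw [← not_lt, ← not_lt, ← hlt, Equiv.apply_symm_apply, Equiv.apply_symm_apply] }
  have hf : f = OrderIso.refl _ := Subsingleton.elim _ _
  ext1 s
  have h1 : f (ρ s) = ρ s := by rw [hf]; rfl
  have h2 : f (ρ s) = ρ' s := by
    show ρ' (ρ.symm (ρ s)) = ρ' s
    rw [Equiv.symm_apply_apply]
  rw [← h1, h2]

/-- a compatible order from a key -/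
lemma exists_of_key {Λ : Type*} [LinearOrder Λ] (κ : ZMod n → Λ) (hinj : Injective κ)
    (h1 : ∀ s t, u s < u t → κ s < κ t)
    (h2 : ∀ s t, u s = u t → κ s < κ t →
      if σ (u s) = true then κ (s + 1) < κ (t + 1) else κ (t + 1) < κ (s + 1)) :
    ∃ ρ : ZMod n ≃ Fin n, Comp σ u ρ := by
  letI : LinearOrder (ZMod n) := LinearOrder.lift' κ hinj
  let f : Fin n ≃o ZMod n := Fintype.orderIsoFinOfCardEq (ZMod n) (ZMod.card n)
  have hlt : ∀ s t, f.symm s < f.symm t ↔ κ s < κ t := by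
    intro s t
    rw [OrderIso.lt_iff_lt]
    exact Iff.rfl
  refine ⟨f.symm.toEquiv, ?_, ?_⟩
  · intro s t h
    exact (hlt s t).mpr (h1 s t h)
  · intro s t h h3
    have h4 := h2 s t h ((hlt s t).mp h3)
    split_ifs at h4 ⊢ with h5
    · exact (hlt _ _).mpr h4
    · exact (hlt _ _).mpr h4

end Pool.Agent.X71.Cc
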