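import Pool.Agent.X71.Cc.Count

/-!
# Cyclic permutations with a segmentation, and compatible orders
-/

set_option autoImplicit false
set_option linter.unusedSectionVars false
set_option linter.style.haveILetI false

open Finset Function

namespace Pool.Agent.X71.Cc

variable {n K : ℕ} [NeZero n]

/-- a permutation consisting of a single cycle -/
def Cyc {n : ℕ} (π : Equiv.Perm (Fin n)) : Prop := ∀ x y, ∃ m : ℕ, (π ^ m) x = y

/-- a labelling compatible with a permutation -/
def CompW {n K : ℕ} (σ : Fin K → Bool) (π : Equiv.Perm (Fin n)) (w : Fin n → Fin K) : Prop :=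
  ∀ i j, i < j → w i ≤ w j ∧ (w i = w j → if σ (w i) = true then π i < π j else π j < π i)

lemma val_succ (t : ZMod n) :
    (t.val + 1 < n ∧ (t + 1).val = t.val + 1) ∨ (t.val + 1 = n ∧ t + 1 = 0) := by
  have h0 : (t + 1 : ZMod n) = ((t.val + 1 : ℕ) : ZMod n) := by
    push_cast
    rw [ZMod.natCast_zmod_val]
  rcases Nat.lt_or_ge (t.val + 1) n with h2 | h2
  · left
    exact ⟨h2, by rw [h0, ZMod.val_cast_of_lt h2]⟩
  · right
    have h3 : t.val + 1 = n := le_antisymm (ZMod.val_lt t) h2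
    exact ⟨h3, by rw [h0, h3, ZMod.natCast_self]⟩

/-- the permutation of a bijection with the cyclic group -/
def permOf (ρ : ZMod n ≃ Fin n) : Equiv.Perm (Fin n) :=
  ρ.symm.trans ((Equiv.addRight (1 : ZMod n)).trans ρ)

lemma permOf_apply (ρ : ZMod n ≃ Fin n) (s : ZMod n) : permOf ρ (ρ s) = ρ (s + 1) := by
  show ρ (ρ.symm (ρ s) + 1) = _
  rw [Equiv.symm_apply_apply]

lemma permOf_pow (ρ : ZMod n ≃ Fin n) (m : ℕ) (s : ZMod n) :
    (permOf ρ ^ m) (ρ s) = ρ (s + m) := by
  induction m generalizing s with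
  | zero => simp
  | succ m ih =>
    rw [pow_succ, Equiv.Perm.mul_apply, permOf_apply, ih]
    congr 1
    push_cast
    ring

lemma permOf_cyc (ρ : ZMod n ≃ Fin n) : Cyc (permOf ρ) := by
  intro x y
  refine ⟨(ρ.symm y - ρ.symm x).val, ?_⟩
  have h := permOf_pow ρ (ρ.symm y - ρ.symm x).val (ρ.symm x)
  rw [Equiv.apply_symm_apply, ZMod.natCast_zmod_val, add_sub_cancel, Equiv.apply_symm_apply] at h
  exact h

lemma exists_rho {π : Equiv.Perm (Fin n)} (hπ : Cyc π) (x : Fin n) :
    ∃ ρ : ZMod n ≃ Fin n, permOf ρ = π ∧ ρ 0 = x := by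
  classical
  have hc : π.IsCycleOn ((univ : Finset (Fin n)) : Set (Fin n)) := by
    rw [coe_univ]
    refine ⟨Set.bijOn_univ.mpr π.bijective, fun a _ b _ => ?_⟩
    obtain ⟨m, hm⟩ := hπ a b
    exact ⟨(m : ℤ), by rw [zpow_natCast]; exact hm⟩
  have hcard : (univ : Finset (Fin n)).card = n := by simp
  let g : ZMod n → Fin n := fun t => (π ^ t.val) x
  have hsurj : Surjective g := by
    intro b
    obtain ⟨m, hm, hb⟩ := hc.exists_pow_eq (mem_univ x) (mem_univ b)
    rw [hcard] at hm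
    refine ⟨(m : ZMod n), ?_⟩
    show (π ^ (m : ZMod n).val) x = b
    rw [ZMod.val_cast_of_lt hm, hb]
  have hbij : Bijective g := by
    rw [Fintype.bijective_iff_surjective_and_card]
    exact ⟨hsurj, by rw [ZMod.card, Fintype.card_fin]⟩
  have hstep : ∀ t, g (t + 1) = π (g t) := by
    intro t
    show (π ^ (t + 1).val) x = π ((π ^ t.val) x)
    rw [← Equiv.Perm.mul_apply, ← pow_succ']
    rcases val_succ t with ⟨_, h2⟩ | ⟨h1, h2⟩
    · rw [h2]
    · have h3 := hc.pow_card_apply (mem_univ x)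
      rw [hcard] at h3
      rw [h1, h2, h3, ZMod.val_zero, pow_zero]
      rfl
  let ρ : ZMod n ≃ Fin n := Equiv.ofBijective g hbij
  refine ⟨ρ, ?_, ?_⟩
  · ext1 i
    obtain ⟨s, rfl⟩ := ρ.surjective i
    rw [permOf_apply]
    exact hstep s
  · show (π ^ (0 : ZMod n).val) x = x
    rw [ZMod.val_zero, pow_zero]
    rfl

lemma rho_ext {ρ ρ' : ZMod n ≃ Fin n} (h1 : permOf ρ = permOf ρ') (h2 : ρ 0 = ρ' 0) :
    ρ = ρ' := by
  ext1 t
  have h3 := permOf_pow ρ t.val 0
  have h4 := permOf_pow ρ' t.val 0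
  rw [ZMod.natCast_zmod_val, zero_add] at h3 h4
  rw [← h3, ← h4, h1, h2]

lemma compW_iff (σ : Fin K → Bool) (u : ZMod n → Fin K) (ρ : ZMod n ≃ Fin n) :
    CompW σ (permOf ρ) (fun i => u (ρ.symm i)) ↔ Comp σ u ρ := by
  constructor
  · intro h
    constructor
    · intro s t hst
      rcases lt_trichotomy (ρ s) (ρ t) with h1 | h1 | h1
      · exact h1
      · rw [ρ.injective h1] at hst
        exact absurd hst (lt_irrefl _)
      · have h2 := (h _ _ h1).1
        simp only [Equiv.symm_apply_apply] at h2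
        exact absurd hst (not_lt.mpr h2)
    · intro s t hst h1
      have h2 := (h _ _ h1).2
      simp only [Equiv.symm_apply_apply, permOf_apply] at h2
      exact h2 hst
  · intro h i j hij
    obtain ⟨s, rfl⟩ := ρ.surjective i
    obtain ⟨t, rfl⟩ := ρ.surjective j
    simp only [Equiv.symm_apply_apply, permOf_apply]
    refine ⟨?_, fun h1 => h.2 s t h1 hij⟩
    by_contra h1
    push Not at h1
    exact absurd (h.1 t s h1) (not_lt.mpr hij.le)

open Classical in
theorem triples (σ : Fin K → Bool) :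
    n * ∑ π ∈ univ.filter (fun π : Equiv.Perm (Fin n) => Cyc π),
      (univ.filter fun w : Fin n → Fin K => CompW σ π w).card =
    ∑ u : ZMod n → Fin K, LL σ u := by
  have h1 : (univ.filter (fun p : (Equiv.Perm (Fin n) × (Fin n → Fin K)) × Fin n =>
      Cyc p.1.1 ∧ CompW σ p.1.1 p.1.2)).card =
      n * ∑ π ∈ univ.filter (fun π : Equiv.Perm (Fin n) => Cyc π),
      (univ.filter fun w : Fin n → Fin K => CompW σ π w).card := by
    rw [card_filter, Fintype.sum_prod_type, sum_filter, mul_sum]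
    rw [Fintype.sum_prod_type]
    refine sum_congr rfl fun π _ => ?_
    by_cases hπ : Cyc π
    · rw [if_pos hπ, card_filter, mul_sum]
      refine sum_congr rfl fun w _ => ?_
      simp [hπ]
    · rw [if_neg hπ]
      simp [hπ]
  have h2 : (univ.filter (fun q : (ZMod n → Fin K) × (ZMod n ≃ Fin n) =>
      Comp σ q.1 q.2)).card = ∑ u : ZMod n → Fin K, LL σ u := by
    rw [card_filter, Fintype.sum_prod_type]
    refine sum_congr rfl fun u _ => ?_
    unfold LL
    rw [card_filter]
  rw [← h1, ← h2]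
  symm
  refine card_bij (fun q _ => ((permOf q.2, fun i => q.1 (q.2.symm i)), q.2 0))
    (fun q hq => ?_) (fun q hq q' hq' he => ?_) (fun p hp => ?_)
  · rw [mem_filter] at hq ⊢
    exact ⟨mem_univ _, permOf_cyc _, (compW_iff σ q.1 q.2).mpr hq.2⟩
  · simp only [Prod.mk.injEq] at he
    obtain ⟨⟨h3, h4⟩, h5⟩ := he
    have h6 := rho_ext h3 h5
    refine Prod.ext ?_ h6
    funext t
    have h7 := congrFun h4 (q.2 t)
    rw [Equiv.symm_apply_apply] at h7
    rw [h7, h6, Equiv.symm_apply_apply]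
  · rw [mem_filter] at hp
    obtain ⟨⟨π, w⟩, x⟩ := p
    obtain ⟨ρ, h3, h4⟩ := exists_rho hp.2.1 x
    have h5 : (fun i => (fun t => w (ρ t)) (ρ.symm i)) = w := by
      funext i
      show w (ρ (ρ.symm i)) = w i
      rw [Equiv.apply_symm_apply]
    refine ⟨(fun t => w (ρ t), ρ), ?_, ?_⟩
    · rw [mem_filter]
      refine ⟨mem_univ _, ?_⟩
      rw [← compW_iff, h3, h5]
      exact hp.2.2
    · show ((permOf ρ, fun i => (fun t => w (ρ t)) (ρ.symm i)), ρ 0) = ((π, w), x)
      rw [h3, h4, h5]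

end Pool.Agent.X71.Cc
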