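import Pool.Agent.X71.Cc.Link

/-!
# Complementary signatures and lengths not congruent to 2 modulo 4
-/

set_option autoImplicit false
set_option linter.unusedSectionVars false
set_option linter.style.haveILetI false

open Finset Function

namespace Pool.Agent.X71.Cc

variable {n K : ℕ} [NeZero n]

lemma LL_compl {σ σ' : Fin K → Bool} (hσ : ∀ c, σ' c = !σ c) (hn : n % 4 ≠ 2)
    (u : ZMod n → Fin K) : LL σ u = LL σ' u := by
  by_cases h1 : Per u ⊆ {0}
  · rw [LL_prim h1, LL_prim h1]
  by_cases h2 : ∃ h, n = h + h ∧ Per u = {0, (h : ZMod n)}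
  · obtain ⟨h, h3, h4⟩ := h2
    have h5 : Even h := by
      rw [Nat.even_iff]
      omega
    have h6 := LL_half (σ := σ) h3 h4
    have h7 := LL_half (σ := σ') h3 h4
    rw [EE_neg hσ, h5.neg_one_pow, one_mul] at h7
    rw [← h7] at h6
    exact_mod_cast h6
  · rw [LL_zero h1 h2, LL_zero h1 h2]

lemma comp_mono {σ : Fin K → Bool} {u : ZMod n → Fin K} {ρ : ZMod n ≃ Fin n}
    (h : Comp σ u ρ) : Monotone fun i => u (ρ.symm i) := by
  intro i j hij
  rcases lt_or_eq_of_le hij with h1 | h1
  · exact ((compW_iff σ u ρ).mpr h i j h1).1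
  · rw [h1]

open Classical in
theorem pairs (σ : Fin K → Bool) {w : Fin n → Fin K} (hw : Monotone w) :
    (univ.filter fun π : Equiv.Perm (Fin n) => Cyc π ∧ CompW σ π w).card * n =
    ∑ u : ZMod n → Fin K, if ∃ ρ : ZMod n ≃ Fin n, u = fun t => w (ρ t) then LL σ u else 0 := by
  have h1 : ∀ u : ZMod n → Fin K,
      (if ∃ ρ : ZMod n ≃ Fin n, u = fun t => w (ρ t) then LL σ u else 0) =
      (univ.filter fun ρ : ZMod n ≃ Fin n => (u = fun t => w (ρ t)) ∧ Comp σ u ρ).card := by
    intro u
    split_ifs with h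
    · unfold LL
      congr 1
      ext ρ
      rw [mem_filter, mem_filter]
      constructor
      · rintro ⟨h2, h3⟩
        refine ⟨h2, ?_, h3⟩
        obtain ⟨ρ', rfl⟩ := h
        have h4 : Monotone (w ∘ (ρ.symm.trans ρ' : Equiv.Perm (Fin n))) := comp_mono h3
        have h5 : Monotone (w ∘ (Equiv.refl (Fin n) : Equiv.Perm (Fin n))) := hw
        have h6 := Tuple.unique_monotone h4 h5
        funext t
        have h7 := congrFun h6 (ρ t)
        simpa using h7
      · rintro ⟨h2, _, h3⟩
        exact ⟨h2, h3⟩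
    · symm
      rw [card_eq_zero, filter_eq_empty_iff]
      rintro ρ _ ⟨h2, _⟩
      exact h ⟨ρ, h2⟩
  rw [sum_congr rfl fun u _ => h1 u]
  have h2 : ∑ u : ZMod n → Fin K,
      (univ.filter fun ρ : ZMod n ≃ Fin n => (u = fun t => w (ρ t)) ∧ Comp σ u ρ).card =
      (univ.filter fun ρ : ZMod n ≃ Fin n => Comp σ (fun t => w (ρ t)) ρ).card := by
    rw [card_eq_sum_card_fiberwise (s := univ.filter fun ρ : ZMod n ≃ Fin n =>
      Comp σ (fun t => w (ρ t)) ρ) (f := fun ρ => fun t => w (ρ t)) (t := univ)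
      (fun _ _ => mem_univ _)]
    refine sum_congr rfl fun u _ => ?_
    rw [filter_filter]
    congr 1
    ext ρ
    rw [mem_filter, mem_filter]
    constructor
    · rintro ⟨h3, rfl, h4⟩
      exact ⟨h3, h4, rfl⟩
    · rintro ⟨h3, h4, rfl⟩
      exact ⟨h3, rfl, h4⟩
  rw [h2]
  have h3 : (univ.filter fun π : Equiv.Perm (Fin n) => Cyc π ∧ CompW σ π w).card * n =
      ((univ.filter fun π : Equiv.Perm (Fin n) => Cyc π ∧ CompW σ π w) ×ˢ
        (univ : Finset (Fin n))).card := by
    rw [card_product, card_univ, Fintype.card_fin]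
  rw [h3]
  symm
  refine card_bij (fun ρ _ => (permOf ρ, ρ 0)) (fun ρ hρ => ?_) (fun ρ _ ρ' _ he => ?_)
    (fun p hp => ?_)
  · rw [mem_filter] at hρ
    rw [mem_product, mem_filter]
    refine ⟨⟨mem_univ _, permOf_cyc _, ?_⟩, mem_univ _⟩
    have h4 := (compW_iff σ (fun t => w (ρ t)) ρ).mpr hρ.2
    simpa using h4
  · simp only [Prod.mk.injEq] at he
    exact rho_ext he.1 he.2
  · rw [mem_product, mem_filter] at hp
    obtain ⟨π, x⟩ := p
    obtain ⟨ρ, h4, h5⟩ := exists_rho hp.1.2.1 x
    refine ⟨ρ, ?_, ?_⟩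
    · rw [mem_filter]
      refine ⟨mem_univ _, ?_⟩
      rw [← compW_iff, h4]
      have h6 := hp.1.2.2
      simpa using h6
    · rw [h4, h5]

open Classical in
theorem pairs_compl {σ σ' : Fin K → Bool} (hσ : ∀ c, σ' c = !σ c) (hn : n % 4 ≠ 2)
    {w : Fin n → Fin K} (hw : Monotone w) :
    (univ.filter fun π : Equiv.Perm (Fin n) => Cyc π ∧ CompW σ π w).card =
    (univ.filter fun π : Equiv.Perm (Fin n) => Cyc π ∧ CompW σ' π w).card := by
  have h1 := pairs σ hw
  have h2 := pairs σ' hw
  rw [sum_congr rfl fun u _ => by rw [LL_compl hσ hn u], ← h2] at h1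
  exact Nat.eq_of_mul_eq_mul_right (Nat.pos_of_ne_zero (NeZero.ne n)) h1

/-- the labelling of the blocks between the positions outside `R` -/
def lab {m : ℕ} (R : Finset (Fin m)) (i : Fin (m + 1)) : Fin (m + 1) :=
  ⟨(univ.filter fun j : Fin m => j ∉ R ∧ (j : ℕ) < i).card, by
    have := card_le_univ (univ.filter fun j : Fin m => j ∉ R ∧ (j : ℕ) < i)
    rw [Fintype.card_fin] at this
    omega⟩

lemma lab_step {m : ℕ} (R : Finset (Fin m)) (i : Fin m) :
    (lab R i.succ : ℕ) = lab R i.castSucc + if i ∈ R then 0 else 1 := by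
  show (univ.filter fun j : Fin m => j ∉ R ∧ (j : ℕ) < i.succ).card =
    (univ.filter fun j : Fin m => j ∉ R ∧ (j : ℕ) < i.castSucc).card + _
  rw [Fin.val_succ, Fin.val_castSucc]
  split_ifs with h
  · rw [add_zero]
    congr 1
    ext j
    rw [mem_filter, mem_filter]
    constructor
    · rintro ⟨h1, h2, h3⟩
      refine ⟨h1, h2, ?_⟩
      have h4 : (j : ℕ) ≠ i := fun h5 => h2 (by rw [Fin.ext h5]; exact h)
      omega
    · rintro ⟨h1, h2, h3⟩
      exact ⟨h1, h2, by omega⟩
  · have h1 : (univ.filter fun j : Fin m => j ∉ R ∧ (j : ℕ) < i + 1) =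
        insert i (univ.filter fun j : Fin m => j ∉ R ∧ (j : ℕ) < i) := by
      ext j
      rw [mem_insert, mem_filter, mem_filter]
      constructor
      · rintro ⟨h1, h2, h3⟩
        rcases Nat.lt_or_ge (j : ℕ) i with h4 | h4
        · exact Or.inr ⟨h1, h2, h4⟩
        · exact Or.inl (Fin.ext (by omega))
      · rintro (h1 | ⟨h1, h2, h3⟩)
        · rw [h1]; exact ⟨mem_univ _, h, by omega⟩
        · exact ⟨h1, h2, by omega⟩
    rw [h1, card_insert_of_notMem]
    rw [mem_filter]
    rintro ⟨_, _, h2⟩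
    omega

lemma lab_mono {m : ℕ} (R : Finset (Fin m)) : Monotone (lab R) := by
  rw [Fin.monotone_iff_le_succ]
  intro i
  show (lab R i.castSucc : ℕ) ≤ lab R i.succ
  rw [lab_step]
  omega

lemma compW_lab {m : ℕ} (R : Finset (Fin m)) (b : Bool) (π : Equiv.Perm (Fin (m + 1))) :
    CompW (fun _ : Fin (m + 1) => b) π (lab R) ↔ ∀ i ∈ R, stp π i = b := by
  rw [compW_iff_PP]
  constructor
  · intro h i hi
    have h1 := lab_step R i
    rw [if_pos hi, add_zero] at h1
    rcases h i with h2 | h2
    · exfalso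
      have : (lab R i.castSucc : ℕ) < lab R i.succ := h2
      omega
    · exact h2.2.symm
  · intro h i
    have h1 := lab_step R i
    by_cases hi : i ∈ R
    · right
      rw [if_pos hi, add_zero] at h1
      exact ⟨Fin.ext h1.symm, (h i hi).symm⟩
    · left
      rw [if_neg hi] at h1
      show (lab R i.castSucc : ℕ) < lab R i.succ
      omega

/-- the set of positions where the up-down word is `b` -/
def pos {m : ℕ} (b : Bool) (π : Equiv.Perm (Fin (m + 1))) : Finset (Fin m) :=
  univ.filter fun i => stp π i = b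

open Classical in
lemma card_sup {m : ℕ} (hm : (m + 1) % 4 ≠ 2) (R : Finset (Fin m)) :
    ((univ.filter fun π : Equiv.Perm (Fin (m + 1)) => Cyc π).filter
      fun π => R ⊆ pos true π).card =
    ((univ.filter fun π : Equiv.Perm (Fin (m + 1)) => Cyc π).filter
      fun π => R ⊆ pos false π).card := by
  have h1 := pairs_compl (n := m + 1) (σ := fun _ : Fin (m + 1) => true) (σ' := fun _ => false)
    (fun _ => rfl) hm (lab_mono R)
  have h2 : ∀ (b : Bool) (π : Equiv.Perm (Fin (m + 1))),
      CompW (fun _ : Fin (m + 1) => b) π (lab R) ↔ R ⊆ pos b π := by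
    intro b π
    rw [compW_lab]
    constructor
    · intro h i hi
      exact mem_filter.mpr ⟨mem_univ _, h i hi⟩
    · intro h i hi
      exact (mem_filter.mp (h hi)).2
  simp only [h2] at h1
  rw [filter_filter, filter_filter]
  exact h1

open Classical in
lemma mob {m : ℕ} (F G : Finset (Fin m) → ℕ)
    (h : ∀ R : Finset (Fin m), ∑ A ∈ univ.filter (fun A => R ⊆ A), F A =
      ∑ A ∈ univ.filter (fun A => R ⊆ A), G A) (A : Finset (Fin m)) : F A = G A := by
  have hA : A.card ≤ m := by
    have := card_le_univ A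
    rwa [Fintype.card_fin] at this
  refine Finset.strongDownwardInduction (n := m) (p := fun A => F A = G A) ?_ A hA
  intro A ih _
  have h1 : (univ.filter fun B => A ⊆ B) = insert A (univ.filter fun B => A ⊂ B) := by
    ext B
    rw [mem_insert, mem_filter, mem_filter]
    constructor
    · rintro ⟨h1, h2⟩
      rcases eq_or_ssubset_of_subset h2 with h3 | h3
      · exact Or.inl h3.symm
      · exact Or.inr ⟨h1, h3⟩
    · rintro (h1 | ⟨h1, h2⟩)
      · rw [h1]; exact ⟨mem_univ _, Subset.refl _⟩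
      · exact ⟨h1, h2.subset⟩
  have h2 := h A
  have h3 : A ∉ univ.filter fun B => A ⊂ B := by
    rw [mem_filter]
    rintro ⟨_, h4⟩
    exact absurd h4 (ssubset_irrefl A)
  rw [h1, sum_insert h3, sum_insert h3] at h2
  have h4 : ∑ B ∈ univ.filter (fun B => A ⊂ B), F B = ∑ B ∈ univ.filter (fun B => A ⊂ B), G B := by
    refine sum_congr rfl fun B hB => ?_
    refine ih ?_ (mem_filter.mp hB).2
    have := card_le_univ B
    rwa [Fintype.card_fin] at this
  omega

open Classical in
lemma card_eq_set {m : ℕ} (hm : (m + 1) % 4 ≠ 2) (A : Finset (Fin m)) :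
    ((univ.filter fun π : Equiv.Perm (Fin (m + 1)) => Cyc π).filter
      fun π => pos true π = A).card =
    ((univ.filter fun π : Equiv.Perm (Fin (m + 1)) => Cyc π).filter
      fun π => pos false π = A).card := by
  refine mob (fun A => ((univ.filter fun π : Equiv.Perm (Fin (m + 1)) => Cyc π).filter
      fun π => pos true π = A).card) (fun A =>
    ((univ.filter fun π : Equiv.Perm (Fin (m + 1)) => Cyc π).filter
      fun π => pos false π = A).card) (fun R => ?_) A
  have h1 : ∀ b, ∑ A ∈ univ.filter (fun A => R ⊆ A),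
      ((univ.filter fun π : Equiv.Perm (Fin (m + 1)) => Cyc π).filter
        fun π => pos b π = A).card =
      ((univ.filter fun π : Equiv.Perm (Fin (m + 1)) => Cyc π).filter
        fun π => R ⊆ pos b π).card := by
    intro b
    rw [card_eq_sum_card_fiberwise (s := (univ.filter fun π : Equiv.Perm (Fin (m + 1)) =>
      Cyc π).filter fun π => R ⊆ pos b π) (f := fun π => pos b π)
      (t := univ.filter (fun A => R ⊆ A))]
    · refine sum_congr rfl fun A hA => ?_
      congr 1
      ext π
      simp only [mem_filter, mem_univ, true_and]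
      constructor
      · rintro ⟨h1, rfl⟩
        exact ⟨⟨h1, (mem_filter.mp hA).2⟩, rfl⟩
      · rintro ⟨⟨h1, _⟩, h2⟩
        exact ⟨h1, h2⟩
    · intro π hπ
      have h2 := (mem_filter.mp (mem_coe.mp hπ)).2
      exact mem_coe.mpr (mem_filter.mpr ⟨mem_univ _, h2⟩)
  rw [h1, h1]
  exact card_sup hm R

open Classical in
theorem card_compl {m K : ℕ} (hm : (m + 1) % 4 ≠ 2) {σ σ' : Fin K → Bool}
    (hσ : ∀ c, σ' c = !σ c) :
    (univ.filter fun π : Equiv.Perm (Fin (m + 1)) => Cyc π ∧ ∃ w, CompW σ π w).card =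
    (univ.filter fun π : Equiv.Perm (Fin (m + 1)) => Cyc π ∧ ∃ w, CompW σ' π w).card := by
  let Q : Finset (Fin m) → Prop := fun A => ∃ w, PP σ (fun i => decide (i ∈ A)) w
  have h1 : ∀ π : Equiv.Perm (Fin (m + 1)), (∃ w, CompW σ π w) ↔ Q (pos true π) := by
    intro π
    have : stp π = fun i => decide (i ∈ pos true π) := by
      funext i
      unfold pos
      rw [Bool.eq_iff_iff, decide_eq_true_iff, mem_filter]
      simp
    simp only [compW_iff_PP, Q]
    rw [← this]
  have h2 : ∀ π : Equiv.Perm (Fin (m + 1)), (∃ w, CompW σ' π w) ↔ Q (pos false π) := by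
    intro π
    have h3 : ∀ i, (!stp π i) = decide (i ∈ pos false π) := by
      intro i
      unfold pos
      rw [Bool.eq_iff_iff, decide_eq_true_iff, mem_filter]
      simp
    have h4 : ∀ w : Fin (m + 1) → Fin K, PP σ' (stp π) w ↔
        PP σ (fun i => decide (i ∈ pos false π)) w := by
      intro w
      unfold PP
      refine forall_congr' fun i => ?_
      simp only [← h3]
      rw [hσ]
      have h5 : ∀ a b : Bool, ((!a) = b) ↔ (a = !b) := by decide
      rw [h5]
    simp only [compW_iff_PP, Q, h4]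
  have h3 : ∀ b, (univ.filter fun π : Equiv.Perm (Fin (m + 1)) => Cyc π ∧ Q (pos b π)).card =
      ∑ A ∈ univ.filter Q, ((univ.filter fun π : Equiv.Perm (Fin (m + 1)) => Cyc π).filter
        fun π => pos b π = A).card := by
    intro b
    rw [card_eq_sum_card_fiberwise (s := univ.filter fun π : Equiv.Perm (Fin (m + 1)) =>
      Cyc π ∧ Q (pos b π)) (f := fun π => pos b π) (t := univ.filter Q)]
    · refine sum_congr rfl fun A hA => ?_
      congr 1
      ext π
      simp only [mem_filter, mem_univ, true_and]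
      constructor
      · rintro ⟨⟨h1, _⟩, h2⟩
        exact ⟨h1, h2⟩
      · rintro ⟨h1, h2⟩
        exact ⟨⟨h1, by rw [h2]; exact (mem_filter.mp hA).2⟩, h2⟩
    · intro π hπ
      have h2 := (mem_filter.mp (mem_coe.mp hπ)).2
      exact mem_coe.mpr (mem_filter.mpr ⟨mem_univ _, h2.2⟩)
  simp only [h1, h2]
  rw [h3, h3]
  exact sum_congr rfl fun A _ => card_eq_set hm A

end Pool.Agent.X71.Cc
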